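import Mathlib

/-! # Hilbert 90 for cocycles with values in `GL_N` -/

set_option autoImplicit false

namespace Pool.Agent.H865.TQ

open Matrix

/-- Hilbert 90 for the general linear group. -/
theorem h90c (k F : Type) [Field k] [Field F] [Algebra k F] [FiniteDimensional k F]
    {N : ℕ} (c : (F ≃ₐ[k] F) → Matrix (Fin N) (Fin N) F) (hc1 : c 1 = 1)
    (hc : ∀ σ τ : F ≃ₐ[k] F, c (σ * τ) = c σ * (c τ).map σ) :
    ∃ A : Matrix (Fin N) (Fin N) F, IsUnit A ∧ ∀ σ : F ≃ₐ[k] F, c σ * A.map σ = A := by
  classical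
  have hfin : Fintype (F ≃ₐ[k] F) := Fintype.ofFinite _
  let v : F → Fin N → (Fin N → F) := fun b i l => ∑ τ, τ b * c τ l i
  have hv : ∀ (σ : F ≃ₐ[k] F) b i l, ∑ m, c σ l m * σ (v b i m) = v b i l := by
    intro σ b i l
    change ∑ m, c σ l m * σ (∑ τ, τ b * c τ m i) = ∑ τ, τ b * c τ l i
    have h1 : ∀ τ : F ≃ₐ[k] F, (σ * τ) b * c (σ * τ) l i =
        ∑ m, c σ l m * (σ (τ b) * σ (c τ m i)) := by
      intro τ
      rw [hc, Matrix.mul_apply, Finset.mul_sum]
      refine Finset.sum_congr rfl fun m _ => ?_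
      rw [Matrix.map_apply]
      change σ (τ b) * _ = _
      ring
    refine Eq.trans ?_ (Equiv.sum_comp (Equiv.mulLeft σ) (fun τ => τ b * c τ l i))
    refine Eq.trans ?_ (Finset.sum_congr rfl fun τ _ => (h1 τ).symm)
    rw [Finset.sum_comm]
    refine Finset.sum_congr rfl fun m _ => ?_
    rw [map_sum, Finset.mul_sum]
    refine Finset.sum_congr rfl fun τ _ => ?_
    rw [map_mul]
  let s : Set (Fin N → F) := Set.range fun p : F × Fin N => v p.1 p.2
  have hspan : Submodule.span F s = ⊤ := by
    by_contra hne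
    obtain ⟨f, hf0, hf⟩ := Submodule.exists_le_ker_of_lt_top _ (lt_top_iff_ne_top.2 hne)
    apply hf0
    have h1 : ∀ b i, ∑ τ : F ≃ₐ[k] F, τ b * f (fun l => c τ l i) = 0 := by
      intro b i
      have h2 : f (v b i) = 0 := hf (Submodule.subset_span ⟨(b, i), rfl⟩)
      rw [← h2]
      have h3 : v b i = ∑ τ : F ≃ₐ[k] F, τ b • (fun l => c τ l i) := by
        funext l
        rw [Finset.sum_apply]
        rfl
      rw [h3, map_sum]
      refine Finset.sum_congr rfl fun τ _ => ?_
      rw [map_smul]
      rfl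
    have h4 : ∀ i (τ : F ≃ₐ[k] F), f (fun l => c τ l i) = 0 := by
      intro i
      have hli := linearIndependent_monoidHom F F
      have hinj : Function.Injective (fun τ : F ≃ₐ[k] F => ((τ : F →* F))) := by
        intro τ τ' h
        exact AlgEquiv.ext fun x => DFunLike.congr_fun h x
      have hli2 := hli.comp _ hinj
      rw [Fintype.linearIndependent_iff] at hli2
      refine hli2 (fun τ => f (fun l => c τ l i)) ?_
      funext b
      rw [Finset.sum_apply]
      refine Eq.trans ?_ (h1 b i)
      refine Finset.sum_congr rfl fun τ _ => ?_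
      change f _ * τ b = _
      rw [mul_comm]
    apply LinearMap.pi_ext'
    intro i
    apply LinearMap.ext_ring
    have h5 := h4 i 1
    rw [hc1] at h5
    change f (Pi.single i 1) = 0
    rw [← h5]
    congr 1
    funext l
    rw [Matrix.one_apply, Pi.single_apply]
  obtain ⟨b, hbs, hbspan, hbli⟩ := exists_linearIndependent F s
  rw [hspan] at hbspan
  let B : Module.Basis b F (Fin N → F) := Module.Basis.mk hbli (by
    rw [Subtype.range_coe, hbspan])
  have hbfin : Finite b := Module.Finite.finite_basis B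
  let _ : Fintype b := Fintype.ofFinite b
  have hcard : Fintype.card b = N := by
    rw [← Module.finrank_eq_card_basis B, Module.finrank_fin_fun]
  let e : Fin N ≃ b := (finCongr hcard.symm).trans (Fintype.equivFin b).symm
  have hcol : ∀ j, ∃ p : F × Fin N, v p.1 p.2 = (e j : Fin N → F) := fun j => hbs (e j).2
  choose p hp using hcol
  refine ⟨Matrix.of fun l j => (e j : Fin N → F) l, ?_, fun σ => ?_⟩
  · rw [← Matrix.linearIndependent_cols_iff_isUnit]
    have h6 : (Matrix.of fun l j => (e j : Fin N → F) l).col = fun j => (e j : Fin N → F) := rfl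
    rw [h6]
    exact hbli.comp _ e.injective
  · ext l j
    rw [Matrix.mul_apply]
    change ∑ m, c σ l m * σ ((e j : Fin N → F) m) = (e j : Fin N → F) l
    rw [← hp j]
    exact hv σ _ _ l

end Pool.Agent.H865.TQ
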