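import Mathlib
import Pool.Graph.R_pool_sql_team_seeded_5cf16337.K3h17.HQ.Av
import Pool.Graph.R_pool_sql_team_seeded_5cf16337.K3h17.HQ.Sub

/-!
# The field of invariants of a semilinear representation and its twisted embeddings
-/

set_option autoImplicit false

namespace Pool.Agent.H865.TQ

open MvPolynomial W560.HP
open Pool.Agent.K3h17.HQ

section inv

variable {k L : Type} [Field k] [Field L] [Algebra k L] {G : Type} [Group G]
  (α : G →* (L ≃ₐ[k] L)) {N : ℕ} (ρ : G → GL (Fin N) L)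

/-- The elements `z` of `L(x)` for which the application of `α g` to the coefficients is the
substitution of `ρ(g) x`, for all `g`. -/
noncomputable def TInv : IntermediateField k (FR N L) where
  carrier := {z | ∀ g, Mf N ((α g : L ≃ₐ[k] L) : L →+* L) z = U (Units.isUnit (ρ g)) z}
  mul_mem' := by
    intro a b ha hb h
    rw [map_mul, map_mul, ha, hb]
  one_mem' := fun h => by rw [map_one, map_one]
  add_mem' := by
    intro a b ha hb h
    rw [map_add, map_add, ha, hb]
  zero_mem' := fun h => by rw [map_zero, map_zero]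
  algebraMap_mem' := by
    intro r h
    have h1 : algebraMap k (FR N L) r =
        algebraMap (MvPolynomial (Fin N) L) (FR N L) (C (algebraMap k L r)) := by
      rw [IsScalarTower.algebraMap_apply k (MvPolynomial (Fin N) L) (FR N L)]
      rfl
    have h2 : ls ((ρ h : GL (Fin N) L) : Matrix (Fin N) (Fin N) L) (C (algebraMap k L r)) =
        C (algebraMap k L r) :=
      (ls _).commutes _
    rw [h1, U_alg, Mf_alg, h2, MvPolynomial.map_C]
    congr 2
    exact (α h).commutes r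
  inv_mem' := by
    intro a ha h
    rw [map_inv₀, map_inv₀, ha]

theorem mem_TInv (z : FR N L) : z ∈ TInv α ρ ↔
    ∀ g, Mf N ((α g : L ≃ₐ[k] L) : L →+* L) z = U (Units.isUnit (ρ g)) z := Iff.rfl

end inv

section tw

variable {k L Fb : Type} [Field k] [Field L] [Algebra k L] [Field Fb] [Algebra k Fb]
  [Algebra L Fb] [IsScalarTower k L Fb] {G : Type} [Group G]
  (α : G →* (L ≃ₐ[k] L)) {N : ℕ} (ρ : G → GL (Fin N) L)

/-- The matrices over the large field. -/
def tb (Fb : Type) [Field Fb] [Algebra L Fb] (h : G) : Matrix (Fin N) (Fin N) Fb :=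
  ((ρ h : GL (Fin N) L) : Matrix (Fin N) (Fin N) L).map (algebraMap L Fb)

theorem tb_unit (h : G) : IsUnit (tb ρ Fb h) := isUnit_map (algebraMap L Fb) (Units.isUnit (ρ h))

/-- The inclusion of the rational functions. -/
noncomputable abbrev ic (N : ℕ) (L Fb : Type) [Field L] [Field Fb] [Algebra L Fb] :
    FR N L →+* FR N Fb := Mf N (algebraMap L Fb)

theorem ic_U (h : G) (z : FR N L) :
    ic N L Fb (U (Units.isUnit (ρ h)) z) = U (tb_unit ρ h) (ic N L Fb z) :=
  Mf_U _ _ _ z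

theorem ic_tower (z : FR N k) : ic N L Fb (ic N k L z) = ic N k Fb z := by
  rw [Mf_Mf]
  refine Mf_congr ?_ z
  exact (IsScalarTower.algebraMap_eq k L Fb).symm

theorem Mf_ic (σ : Fb ≃ₐ[k] Fb) (τ : L ≃ₐ[k] L)
    (h : ∀ x : L, σ (algebraMap L Fb x) = algebraMap L Fb (τ x)) (z : FR N L) :
    Mf N (σ : Fb →+* Fb) (ic N L Fb z) = ic N L Fb (Mf N (τ : L →+* L) z) := by
  rw [Mf_Mf, Mf_Mf]
  refine Mf_congr ?_ z
  exact RingHom.ext fun x => h x

theorem Mf_ick (σ : Fb ≃ₐ[k] Fb) (z : FR N k) :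
    Mf N (σ : Fb →+* Fb) (ic N k Fb z) = ic N k Fb z := by
  rw [Mf_Mf]
  refine Mf_congr ?_ z
  exact RingHom.ext fun x => σ.commutes x

variable {A : Matrix (Fin N) (Fin N) Fb} (hA : IsUnit A) (η : (Fb ≃ₐ[k] Fb) → G)
  (hα : ∀ (σ : Fb ≃ₐ[k] Fb) (x : L), σ (algebraMap L Fb x) = algebraMap L Fb (α (η σ) x))
  (hη : ∀ σ : Fb ≃ₐ[k] Fb, tb ρ Fb (η σ) * A.map (σ : Fb →+* Fb) = A)

include hη hα in
theorem Mf_tw (z : FR N L) (hz : z ∈ TInv α ρ) (σ : Fb ≃ₐ[k] Fb) :
    Mf N (σ : Fb →+* Fb) (U hA (ic N L Fb z)) = U hA (ic N L Fb z) := by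
  rw [Mf_U (σ : Fb →+* Fb) hA (isUnit_map _ hA), Mf_ic σ (α (η σ)) (hα σ), hz, ic_U]
  have h1 : IsUnit (tb ρ Fb (η σ) * A.map (σ : Fb →+* Fb)) :=
    (tb_unit ρ _).mul (isUnit_map _ hA)
  rw [U_U (tb_unit ρ _) (isUnit_map _ hA) h1, U_congr h1 (hη σ) hA]

include hη hα in
/-- The twisted embedding. -/
theorem exists_tw (hfix : ∀ a : Fb, (∀ σ : Fb ≃ₐ[k] Fb, σ a = a) →
    a ∈ Set.range (algebraMap k Fb)) :
    ∃ j : TInv α ρ →ₐ[k] FR N k, ∀ z : TInv α ρ,
      ic N k Fb (j z) = U hA (ic N L Fb (z : FR N L)) := by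
  have h1 : ∀ z : TInv α ρ, ∃ z₀ : FR N k, ic N k Fb z₀ = U hA (ic N L Fb (z : FR N L)) :=
    fun z => descent hfix _ fun σ => Mf_tw α ρ hA η hα hη z z.2 σ
  choose j hj using h1
  have hinj : Function.Injective (ic N k Fb) := (ic N k Fb).injective
  refine ⟨{ toFun := j, map_one' := ?_, map_mul' := ?_, map_zero' := ?_, map_add' := ?_,
            commutes' := ?_ }, hj⟩
  · apply hinj
    rw [hj]
    simp
  · intro x y
    apply hinj
    rw [hj, map_mul (ic N k Fb), hj, hj]
    simp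
  · apply hinj
    rw [hj]
    simp
  · intro x y
    apply hinj
    rw [hj, map_add (ic N k Fb), hj, hj]
    simp
  · intro r
    apply hinj
    rw [hj]
    have h1 : (algebraMap k (FR N k) r) =
        algebraMap (MvPolynomial (Fin N) k) (FR N k) (C r) := by
      rw [IsScalarTower.algebraMap_apply k (MvPolynomial (Fin N) k) (FR N k)]
      rfl
    have h1' : (algebraMap k (FR N L) r) =
        algebraMap (MvPolynomial (Fin N) L) (FR N L) (C (algebraMap k L r)) := by
      rw [IsScalarTower.algebraMap_apply k (MvPolynomial (Fin N) L) (FR N L)]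
      rfl
    have h2 : ((algebraMap k (TInv α ρ) r : TInv α ρ) : FR N L) = algebraMap k (FR N L) r := rfl
    have h3 : ls A (C (algebraMap k Fb r)) = C (algebraMap k Fb r) := (ls A).commutes _
    rw [h2, h1, h1', Mf_alg, Mf_alg, MvPolynomial.map_C, MvPolynomial.map_C,
      ← IsScalarTower.algebraMap_apply k L Fb, U_alg, h3]

include hη in
theorem Mf_inv (y : FR N k) {A' : Matrix (Fin N) (Fin N) Fb} (hA' : IsUnit A') (hAA : A' * A = 1)
    (hAA' : A * A' = 1) (σ : Fb ≃ₐ[k] Fb) :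
    Mf N (σ : Fb →+* Fb) (U hA' (ic N k Fb y)) =
      U (tb_unit ρ (η σ)) (U hA' (ic N k Fb y)) := by
  have h1 : A'.map (σ : Fb →+* Fb) = A' * tb ρ Fb (η σ) := by
    have h2 : A.map (σ : Fb →+* Fb) * A'.map (σ : Fb →+* Fb) = 1 := by
      rw [← Matrix.map_mul, hAA', Matrix.map_one _ (map_zero _) (map_one _)]
    calc A'.map (σ : Fb →+* Fb) = A' * A * A'.map (σ : Fb →+* Fb) := by
          rw [hAA, Matrix.one_mul]
      _ = A' * (tb ρ Fb (η σ) * A.map (σ : Fb →+* Fb)) * A'.map (σ : Fb →+* Fb) := by rw [hη]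
      _ = A' * tb ρ Fb (η σ) * (A.map (σ : Fb →+* Fb) * A'.map (σ : Fb →+* Fb)) := by
          simp only [Matrix.mul_assoc]
      _ = A' * tb ρ Fb (η σ) := by rw [h2, Matrix.mul_one]
  rw [Mf_U (σ : Fb →+* Fb) hA' (isUnit_map _ hA'), Mf_ick]
  have h4 : IsUnit (A' * tb ρ Fb (η σ)) := hA'.mul (tb_unit ρ _)
  rw [U_congr _ h1 h4, ← U_U hA' (tb_unit ρ _) h4]

end tw

section gens

variable (k : Type) [Field k] (N : ℕ)

theorem ai : AlgebraicIndependent k
    (fun i : Fin N => algebraMap (MvPolynomial (Fin N) k) (FR N k) (X i)) := by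
  rw [algebraicIndependent_iff_injective_aeval]
  have h1 : (aeval (fun i => algebraMap (MvPolynomial (Fin N) k) (FR N k) (X i)) :
      MvPolynomial (Fin N) k →ₐ[k] FR N k) =
      IsScalarTower.toAlgHom k (MvPolynomial (Fin N) k) (FR N k) := by
    apply MvPolynomial.algHom_ext
    intro i
    rw [aeval_X]
    rfl
  rw [h1]
  exact IsFractionRing.injective (MvPolynomial (Fin N) k) (FR N k)

theorem adj : IntermediateField.adjoin k
    (Set.range fun i : Fin N => algebraMap (MvPolynomial (Fin N) k) (FR N k) (X i)) = ⊤ := by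
  rw [eq_top_iff]
  intro z _
  obtain ⟨p, q, hq, rfl⟩ := IsFractionRing.div_surjective (A := MvPolynomial (Fin N) k) z
  have h1 : ∀ p : MvPolynomial (Fin N) k, algebraMap (MvPolynomial (Fin N) k) (FR N k) p ∈
      IntermediateField.adjoin k
        (Set.range fun i => algebraMap (MvPolynomial (Fin N) k) (FR N k) (X i)) := by
    intro p
    induction p using MvPolynomial.induction_on with
    | C a =>
      have h2 : algebraMap (MvPolynomial (Fin N) k) (FR N k) (C a) = algebraMap k (FR N k) a := by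
        rw [IsScalarTower.algebraMap_apply k (MvPolynomial (Fin N) k) (FR N k)]
        rfl
      rw [h2]
      exact IntermediateField.algebraMap_mem _ _
    | add p q hp hq =>
      rw [map_add]
      exact add_mem hp hq
    | mul_X p i hp =>
      rw [map_mul]
      exact mul_mem hp (IntermediateField.subset_adjoin k _ ⟨i, rfl⟩)
  exact div_mem (h1 p) (h1 q)

end gens

section avoid

variable {k L Fb : Type} [Field k] [Field L] [Algebra k L] [Field Fb] [Algebra k Fb]
  [Algebra L Fb] [IsScalarTower k L Fb] [Algebra.IsAlgebraic k Fb] {G : Type} [Group G]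
  (α : G →* (L ≃ₐ[k] L)) {N : ℕ} (ρ : G → GL (Fin N) L)

/-- `α` is solvable in the large field, with the full kernel over `E`, with a matrix of
periods. -/
def TOcc (Fb : Type) [Field Fb] [Algebra k Fb] [Algebra L Fb] (E : IntermediateField k Fb) :
    Prop :=
  ∃ (η : (Fb ≃ₐ[k] Fb) → G) (A : Matrix (Fin N) (Fin N) Fb), IsUnit A ∧
    (∀ (σ : Fb ≃ₐ[k] Fb) (x : L), σ (algebraMap L Fb x) = algebraMap L Fb (α (η σ) x)) ∧
    (∀ σ : Fb ≃ₐ[k] Fb, tb ρ Fb (η σ) * A.map (σ : Fb →+* Fb) = A) ∧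
    (∀ g : G, α g = 1 → ∃ σ : Fb ≃ₐ[k] Fb, (∀ x ∈ E, σ x = x) ∧ η σ = g) ∧
    ∀ g : G, ∃ σ : Fb ≃ₐ[k] Fb, η σ = g

/-- The Hilbert property of the field of invariants. -/
theorem hpf_tinv (hk : HilbNR k) (hfix : ∀ a : Fb, (∀ σ : Fb ≃ₐ[k] Fb, σ a = a) →
    a ∈ Set.range (algebraMap k Fb))
    (hfixL : ∀ a : Fb, (∀ σ : Fb ≃ₐ[L] Fb, σ a = a) → a ∈ Set.range (algebraMap L Fb))
    (hocc : ∀ E : IntermediateField k Fb, FiniteDimensional k E → TOcc α ρ Fb E) :
    HPF k (TInv α ρ) := by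
  classical
  refine hpf_of fun q P hP S => ?_
  let jc : TInv α ρ →+* FR N Fb := (ic N L Fb).comp (algebraMap (TInv α ρ) (FR N L))
  have hP0 : ∀ j, (P j).map jc ≠ 0 := by
    intro j h
    have h1 : P j = 0 := (Polynomial.map_eq_zero jc).1 h
    exact hP j 0 (by rw [h1, Polynomial.eval_zero])
  let T : Finset (FR N Fb) := Finset.univ.biUnion fun j => ((P j).map jc).roots.toFinset
  obtain ⟨E, hE, hET⟩ := exists_fin (k := k) T
  obtain ⟨η, A, hA, hα, hη, hsur, hall⟩ := hocc E hE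
  obtain ⟨A', hAA', hA'A⟩ := isUnit_iff_exists.1 hA
  have hA' : IsUnit A' := isUnit_iff_exists.2 ⟨A, hA'A, hAA'⟩
  obtain ⟨j, hj⟩ := exists_tw α ρ hA η hα hη hfix
  refine avAll_emb (t := fun i => algebraMap (MvPolynomial (Fin N) k) (FR N k) (X i)) j hk
    (ai k N) (adj k N) P S fun i y hy => ?_
  -- a root in the rational functions
  set x := U hA' (ic N k Fb y) with hx
  have hUx : U hA x = ic N k Fb y := by
    have h2 : IsUnit (A' * A) := hA'.mul hA
    rw [hx, U_U hA' hA h2, U_congr h2 hA'A isUnit_one, U_one]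
  have hroot : ((P i).map jc).eval x = 0 := by
    apply (U hA).injective
    rw [map_zero, ← Polynomial.eval₂_at_apply (p := (P i).map jc) (U hA) x,
      Polynomial.eval₂_map, hUx]
    have h3 : (U hA).comp jc = (ic N k Fb).comp (j : TInv α ρ →+* FR N k) :=
      RingHom.ext fun z => (hj z).symm
    rw [h3, ← Polynomial.eval₂_map, Polynomial.eval₂_at_apply]
    have h4 : ((P i).map (j : TInv α ρ →+* FR N k)).eval y = 0 := hy
    rw [h4, map_zero]
  have hxT : x ∈ T := by
    refine Finset.mem_biUnion.2 ⟨i, Finset.mem_univ _, ?_⟩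
    rw [Multiset.mem_toFinset, Polynomial.mem_roots (hP0 i)]
    exact hroot
  have hσ : ∀ σ : Fb ≃ₐ[k] Fb, Mf N (σ : Fb →+* Fb) x = U (tb_unit ρ (η σ)) x := fun σ =>
    Mf_inv ρ η hη y hA' hA'A hAA' σ
  have hh : ∀ h : G, α h = 1 → U (tb_unit ρ h) x = x := by
    intro h hh
    obtain ⟨σ, h1, h2⟩ := hsur h hh
    have h3 := hET σ h1 x hxT
    rw [hσ] at h3
    subst h2
    exact h3
  obtain ⟨x₀, hx₀⟩ := descent hfixL x fun σ => by
    have h1 : ∀ z : L, (σ.restrictScalars k) (algebraMap L Fb z) = algebraMap L Fb z :=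
      fun z => σ.commutes z
    have h2 : α (η (σ.restrictScalars k)) = 1 := by
      apply AlgEquiv.ext
      intro z
      apply (algebraMap L Fb).injective
      rw [← hα, h1]
      rfl
    have h3 := hσ (σ.restrictScalars k)
    rw [hh _ h2] at h3
    exact h3
  have hx₀I : x₀ ∈ TInv α ρ := by
    intro g
    obtain ⟨σ, rfl⟩ := hall g
    apply (ic N L Fb).injective
    rw [← Mf_ic σ (α (η σ)) (hα σ), ic_U]
    have h1 : ic N L Fb x₀ = x := hx₀
    rw [h1]
    exact hσ σ
  refine hP i ⟨x₀, hx₀I⟩ ?_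
  apply jc.injective
  rw [map_zero, ← Polynomial.eval₂_at_apply, ← Polynomial.eval_map]
  have h5 : jc ⟨x₀, hx₀I⟩ = x := hx₀
  rw [h5]
  exact hroot

end avoid

end Pool.Agent.H865.TQ
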