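import Mathlib
import Pool.Agent.H865.TQ.Inv
import Pool.Agent.H865.TQ.H90

/-!
# Weakly solvable and freely solvable embedding problems, and matrices of periods
-/

set_option autoImplicit false

namespace Pool.Agent.H865.TQ

open Pool.Agent.K3h17.HQ

/-- The embedding problem `α : G → Gal(L/k)` has a weak solution. -/
def WeakT (k L : Type) [Field k] [Field L] [Algebra k L] {G : Type} [Group G]
    (α : G →* (L ≃ₐ[k] L)) : Prop :=
  ∃ (F : Type) (_ : Field F) (_ : Algebra k F) (_ : Algebra L F) (_ : IsScalarTower k L F)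
    (_ : FiniteDimensional k F) (_ : IsGalois k F) (η : (F ≃ₐ[k] F) →* G),
    ∀ (σ : F ≃ₐ[k] F) (x : L), σ (algebraMap L F x) = algebraMap L F (α (η σ) x)

/-- The embedding problem `α : G → Gal(L/k)` has, for every finite Galois extension `E` of `k`
containing `L`, a weak solution which maps the automorphisms over `E` onto the kernel. -/
def FreeT (k L : Type) [Field k] [Field L] [Algebra k L] {G : Type} [Group G]
    (α : G →* (L ≃ₐ[k] L)) : Prop :=
  ∀ (E : Type) [Field E] [Algebra k E] [Algebra L E] [IsScalarTower k L E]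
    [FiniteDimensional k E] [IsGalois k E],
    ∃ (F : Type) (_ : Field F) (_ : Algebra k F) (_ : Algebra E F) (_ : IsScalarTower k E F)
      (_ : FiniteDimensional k F) (_ : IsGalois k F) (η : (F ≃ₐ[k] F) →* G),
      (∀ (σ : F ≃ₐ[k] F) (x : L), σ (algebraMap E F (algebraMap L E x)) =
        algebraMap E F (algebraMap L E (α (η σ) x))) ∧
      ∀ g : G, α g = 1 → ∃ σ : F ≃ₐ[k] F, (∀ x : E, σ (algebraMap E F x) = algebraMap E F x) ∧
        η σ = g

/-- The cocycle condition: `v ↦ ρ(g) α(g)(v)` is an action of `G` on `L^N`. -/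
def Coc {k L : Type} [Field k] [Field L] [Algebra k L] {G : Type} [Group G]
    (α : G →* (L ≃ₐ[k] L)) {N : ℕ} (ρ : G → GL (Fin N) L) : Prop :=
  ∀ g h : G, (ρ (g * h) : Matrix (Fin N) (Fin N) L) =
    (ρ g : Matrix (Fin N) (Fin N) L) * (ρ h : Matrix (Fin N) (Fin N) L).map (α g)

theorem Coc.one {k L : Type} [Field k] [Field L] [Algebra k L] {G : Type} [Group G]
    {α : G →* (L ≃ₐ[k] L)} {N : ℕ} {ρ : G → GL (Fin N) L} (h : Coc α ρ) :
    (ρ 1 : Matrix (Fin N) (Fin N) L) = 1 := by
  have h1 := h 1 1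
  rw [mul_one, map_one] at h1
  have h2 : (ρ 1 : Matrix (Fin N) (Fin N) L).map (1 : L ≃ₐ[k] L) = ρ 1 := by
    ext i j
    rfl
  rw [h2] at h1
  exact (Units.isUnit (ρ 1)).mul_left_cancel (h1.symm.trans (mul_one _).symm)

section closure

variable {k L : Type} [Field k] [CharZero k] [Field L] [Algebra k L] {Fb : Type} [Field Fb]
  [Algebra k Fb] [Algebra L Fb] [IsScalarTower k L Fb] [IsAlgClosed Fb]
  [Algebra.IsAlgebraic k Fb] {G : Type} [Group G]
  {α : G →* (L ≃ₐ[k] L)} {N : ℕ} {ρ : G → GL (Fin N) L}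

/-- A matrix of periods for a weak solution. -/
theorem occ_of_sol (hρ : Coc α ρ) (F : Type) [Field F] [Algebra k F] [FiniteDimensional k F]
    [IsGalois k F] [Algebra L F] [Algebra F Fb] [IsScalarTower k F Fb] [IsScalarTower L F Fb]
    (η : (F ≃ₐ[k] F) →* G)
    (hη : ∀ (σ : F ≃ₐ[k] F) (x : L), σ (algebraMap L F x) = algebraMap L F (α (η σ) x)) :
    ∃ A : Matrix (Fin N) (Fin N) Fb, IsUnit A ∧
    (∀ (σ : Fb ≃ₐ[k] Fb) (x : L), σ (algebraMap L Fb x) =
      algebraMap L Fb (α (η (AlgEquiv.restrictNormalHom F σ)) x)) ∧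
    ∀ σ : Fb ≃ₐ[k] Fb, tb ρ Fb (η (AlgEquiv.restrictNormalHom F σ)) *
      A.map (σ : Fb →+* Fb) = A := by
  have hcomm : ∀ (σ : Fb ≃ₐ[k] Fb) (x : F), σ (algebraMap F Fb x) =
      algebraMap F Fb (AlgEquiv.restrictNormalHom F σ x) := fun σ x =>
    (AlgEquiv.restrictNormal_commutes σ F x).symm
  let c : (F ≃ₐ[k] F) → Matrix (Fin N) (Fin N) F := fun σ =>
    ((ρ (η σ) : GL (Fin N) L) : Matrix (Fin N) (Fin N) L).map (algebraMap L F)
  obtain ⟨A₀, hA₀, hA⟩ := h90c k F c (by
      change ((ρ (η 1) : GL (Fin N) L) : Matrix (Fin N) (Fin N) L).map (algebraMap L F) = 1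
      rw [map_one, hρ.one, Matrix.map_one _ (map_zero _) (map_one _)]) (fun σ τ => by
      change ((ρ (η (σ * τ)) : GL (Fin N) L) : Matrix (Fin N) (Fin N) L).map (algebraMap L F) = _
      rw [map_mul, hρ, Matrix.map_mul]
      congr 1
      ext i j
      exact (hη σ _).symm)
  refine ⟨A₀.map (algebraMap F Fb), isUnit_map _ hA₀, fun σ x => ?_, fun σ => ?_⟩
  · rw [IsScalarTower.algebraMap_apply L F Fb, hcomm, hη, ← IsScalarTower.algebraMap_apply]
  · have h1 := congrArg (fun M : Matrix (Fin N) (Fin N) F => M.map (algebraMap F Fb))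
      (hA (AlgEquiv.restrictNormalHom F σ))
    simp only [Matrix.map_mul] at h1
    refine Eq.trans ?_ h1
    congr 1
    · ext i j
      exact IsScalarTower.algebraMap_apply L F Fb _
    · ext i j
      exact hcomm σ _

theorem tocc_of_free [FiniteDimensional k L] [IsGalois k L] (hρ : Coc α ρ) (h : FreeT k L α)
    (E : IntermediateField k Fb) (hE : FiniteDimensional k E) : TOcc α ρ Fb E := by
  classical
  let L₁ : IntermediateField k Fb := (IsScalarTower.toAlgHom k L Fb).fieldRange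
  have hL₁ : FiniteDimensional k L₁ := Module.Finite.equiv
    (AlgEquiv.ofInjectiveField (IsScalarTower.toAlgHom k L Fb)).toLinearEquiv
  let E₁ : IntermediateField k Fb := E ⊔ L₁
  have hE₁ : FiniteDimensional k E₁ := IntermediateField.finiteDimensional_sup E L₁
  have hac : IsAlgClosure k Fb := ⟨inferInstance, inferInstance⟩
  have hnFb : Normal k Fb := IsAlgClosure.normal k Fb
  let M : IntermediateField k Fb := IntermediateField.normalClosure k E₁ Fb
  have hMfin : FiniteDimensional k M := normalClosure.is_finiteDimensional k E₁ Fb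
  have hMn : Normal k M := normalClosure.normal k E₁ Fb
  have hMg : IsGalois k M := ⟨⟩
  have hEM : E₁ ≤ M := IntermediateField.le_normalClosure E₁
  have hLM : ∀ x : L, algebraMap L Fb x ∈ M := fun x =>
    hEM ((le_sup_right : L₁ ≤ E₁) ⟨x, rfl⟩)
  let _ : Algebra L M := ((algebraMap L Fb).codRestrict M hLM).toAlgebra
  have hLMF : IsScalarTower L M Fb := IsScalarTower.of_algebraMap_eq fun x => rfl
  have hkLM : IsScalarTower k L M := IsScalarTower.of_algebraMap_eq fun x => by
    apply Subtype.ext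
    exact IsScalarTower.algebraMap_apply k L Fb x
  obtain ⟨F, i1, i2, i3, i4, i5, i6, η, hη1, hη2⟩ := h M
  have hfMF : FiniteDimensional M F := Module.Finite.of_restrictScalars_finite k M F
  have haMF : Algebra.IsAlgebraic M F := Algebra.IsAlgebraic.of_finite M F
  let i : F →ₐ[M] Fb := IsAlgClosed.lift
  let _ : Algebra F Fb := i.toRingHom.toAlgebra
  have hT1 : IsScalarTower M F Fb := IsScalarTower.of_algebraMap_eq fun x => (i.commutes x).symm
  have hT2 : IsScalarTower k F Fb := IsScalarTower.of_algebraMap_eq fun x => by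
    rw [IsScalarTower.algebraMap_apply k M F, ← IsScalarTower.algebraMap_apply M F Fb,
      ← IsScalarTower.algebraMap_apply k M Fb]
  let _ : Algebra L F := ((algebraMap M F).comp (algebraMap L M)).toAlgebra
  have hT3 : IsScalarTower L M F := IsScalarTower.of_algebraMap_eq fun x => rfl
  have hT4 : IsScalarTower L F Fb := IsScalarTower.of_algebraMap_eq fun x => by
    rw [IsScalarTower.algebraMap_apply L M F, ← IsScalarTower.algebraMap_apply M F Fb,
      ← IsScalarTower.algebraMap_apply L M Fb]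
  have hcomm : ∀ (σ : Fb ≃ₐ[k] Fb) (x : F), σ (algebraMap F Fb x) =
      algebraMap F Fb (AlgEquiv.restrictNormalHom F σ x) := fun σ x =>
    (AlgEquiv.restrictNormal_commutes σ F x).symm
  obtain ⟨A, hA, hα, hA2⟩ := occ_of_sol (Fb := Fb) hρ F η hη1
  have hsur : ∀ g : G, α g = 1 → ∃ σ : Fb ≃ₐ[k] Fb, (∀ x ∈ E, σ x = x) ∧
      η (AlgEquiv.restrictNormalHom F σ) = g := by
    intro g hg
    obtain ⟨τ, hτ1, hτ2⟩ := hη2 g hg
    obtain ⟨σ, hσ⟩ := AlgEquiv.restrictNormalHom_surjective (F := k) (K₁ := F) Fb τ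
    refine ⟨σ, fun x hx => ?_, by rw [hσ, hτ2]⟩
    have h4 : σ (algebraMap M Fb ⟨x, hEM ((le_sup_left : E ≤ E₁) hx)⟩) =
        algebraMap M Fb ⟨x, hEM ((le_sup_left : E ≤ E₁) hx)⟩ := by
      rw [IsScalarTower.algebraMap_apply M F Fb, hcomm, hσ, hτ1]
    exact h4
  refine ⟨fun σ => η (AlgEquiv.restrictNormalHom F σ), A, hA, hα, hA2, hsur, fun g => ?_⟩
  obtain ⟨σ₀, hσ₀⟩ := AlgEquiv.restrictNormalHom_surjective (F := k) (K₁ := L) Fb (α g)
  have h1 : α (η (AlgEquiv.restrictNormalHom F σ₀)) = α g := by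
    apply AlgEquiv.ext
    intro x
    apply (algebraMap L Fb).injective
    rw [← hα, ← hσ₀]
    exact (AlgEquiv.restrictNormal_commutes σ₀ L x).symm
  obtain ⟨σ₁, -, hσ₁⟩ := hsur (g * (η (AlgEquiv.restrictNormalHom F σ₀))⁻¹) (by
    rw [map_mul, map_inv, h1, mul_inv_cancel])
  refine ⟨σ₁ * σ₀, ?_⟩
  change η (AlgEquiv.restrictNormalHom F (σ₁ * σ₀)) = g
  rw [map_mul, map_mul, hσ₁, inv_mul_cancel_right]

end closure

/-- The Hilbert property of the field of invariants. -/
theorem hpf_free (k : Type) [Field k] [CharZero k] (hk : W560.HP.HilbNR k) (L : Type) [Field L]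
    [Algebra k L] [FiniteDimensional k L] [IsGalois k L] {G : Type} [Group G]
    {α : G →* (L ≃ₐ[k] L)} (h : FreeT k L α) {N : ℕ} {ρ : G → GL (Fin N) L} (hρ : Coc α ρ) :
    W560.HP.HPF k (TInv α ρ) := by
  let Fb := AlgebraicClosure k
  let i : L →ₐ[k] Fb := IsAlgClosed.lift
  let _ : Algebra L Fb := i.toRingHom.toAlgebra
  have hT : IsScalarTower k L Fb := IsScalarTower.of_algebraMap_eq fun x => (i.commutes x).symm
  have hcL : CharZero L := charZero_of_injective_algebraMap (algebraMap k L).injective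
  have haL : Algebra.IsAlgebraic L Fb := Algebra.IsAlgebraic.tower_top (K := k) L
  have hacL : IsAlgClosure L Fb := ⟨inferInstance, haL⟩
  have hnL : Normal L Fb := IsAlgClosure.normal L Fb
  have hgL : IsGalois L Fb := ⟨⟩
  refine hpf_tinv (Fb := Fb) α ρ hk (fun a ha => ?_) (fun a ha => ?_) fun E hE =>
    tocc_of_free hρ h E hE
  · have h3 : a ∈ (⊥ : IntermediateField k Fb) := by
      rw [InfiniteGalois.mem_bot_iff_fixed]
      exact ha
    exact IntermediateField.mem_bot.1 h3
  · have h3 : a ∈ (⊥ : IntermediateField L Fb) := by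
      rw [InfiniteGalois.mem_bot_iff_fixed]
      exact ha
    exact IntermediateField.mem_bot.1 h3

/-- Unirationality of the field of invariants. -/
theorem uni_weak (k : Type) [Field k] [CharZero k] (L : Type) [Field L]
    [Algebra k L] [FiniteDimensional k L] {G : Type} [Group G]
    {α : G →* (L ≃ₐ[k] L)} (h : WeakT k L α) {N : ℕ} {ρ : G → GL (Fin N) L} (hρ : Coc α ρ) :
    Nonempty (TInv α ρ →ₐ[k] FR N k) := by
  obtain ⟨F, i1, i2, i3, i4, i5, i6, η, hη⟩ := h
  let Fb := AlgebraicClosure k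
  let i : F →ₐ[k] Fb := IsAlgClosed.lift
  let _ : Algebra F Fb := i.toRingHom.toAlgebra
  have hT : IsScalarTower k F Fb := IsScalarTower.of_algebraMap_eq fun x => (i.commutes x).symm
  let _ : Algebra L Fb := ((algebraMap F Fb).comp (algebraMap L F)).toAlgebra
  have hT3 : IsScalarTower L F Fb := IsScalarTower.of_algebraMap_eq fun x => rfl
  have hT4 : IsScalarTower k L Fb := IsScalarTower.of_algebraMap_eq fun x => by
    rw [IsScalarTower.algebraMap_apply k F Fb, IsScalarTower.algebraMap_apply k L F,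
      ← IsScalarTower.algebraMap_apply L F Fb]
  obtain ⟨A, hA, hα, hA2⟩ := occ_of_sol (Fb := Fb) hρ F η hη
  obtain ⟨j, -⟩ := exists_tw α ρ hA (fun σ => η (AlgEquiv.restrictNormalHom F σ)) hα hA2
    fun a ha => by
      have h3 : a ∈ (⊥ : IntermediateField k Fb) := by
        rw [InfiniteGalois.mem_bot_iff_fixed]
        exact ha
      exact IntermediateField.mem_bot.1 h3
  exact ⟨j⟩

end Pool.Agent.H865.TQ
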