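import Mathlib
import Pool.Agent.H865.TQ.Occ

/-!
# The semilinear action on the ring of polynomials and the ring of invariants
-/

set_option autoImplicit false

namespace Pool.Agent.H865.TQ

open MvPolynomial
open Pool.Agent.K3h17.HQ (ls ls_ls ls_one ls_X ls_inj map_ls FR U U_alg Mf Mf_alg)

section act

variable {k L : Type} [Field k] [Field L] [Algebra k L] {G : Type} [Group G]
  (α : G →* (L ≃ₐ[k] L)) {N : ℕ} (ρ : G → GL (Fin N) L)

/-- The action on the polynomials. -/
noncomputable def act (g : G) : MvPolynomial (Fin N) L →+* MvPolynomial (Fin N) L :=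
  (ls (((ρ g)⁻¹ : GL (Fin N) L) : Matrix (Fin N) (Fin N) L) :
    MvPolynomial (Fin N) L →+* MvPolynomial (Fin N) L).comp
    (MvPolynomial.map ((α g : L ≃ₐ[k] L) : L →+* L))

theorem act_apply (g : G) (p : MvPolynomial (Fin N) L) : act α ρ g p =
    ls (((ρ g)⁻¹ : GL (Fin N) L) : Matrix (Fin N) (Fin N) L)
      (MvPolynomial.map ((α g : L ≃ₐ[k] L) : L →+* L) p) := rfl

theorem act_C (g : G) (a : L) : act α ρ g (C a) = C (α g a) := by
  rw [act_apply, MvPolynomial.map_C]
  exact (ls _).commutes _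

variable {α ρ}

theorem act_one (hρ : Coc α ρ) (p : MvPolynomial (Fin N) L) : act α ρ 1 p = p := by
  have h1 : ρ 1 = 1 := Units.ext hρ.one
  have h2 : MvPolynomial.map (((1 : L ≃ₐ[k] L) : L →+* L)) p = p := MvPolynomial.map_id p
  rw [act_apply, h1, map_one, h2, inv_one, Units.val_one, ls_one]

theorem Coc.inv_mul (hρ : Coc α ρ) (g h : G) :
    (((ρ (g * h))⁻¹ : GL (Fin N) L) : Matrix (Fin N) (Fin N) L) =
      (((ρ h)⁻¹ : GL (Fin N) L) : Matrix (Fin N) (Fin N) L).map (α g) *
        (((ρ g)⁻¹ : GL (Fin N) L) : Matrix (Fin N) (Fin N) L) := by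
  apply Units.inv_eq_of_mul_eq_one_right
  rw [hρ]
  have h1 : (ρ h : Matrix (Fin N) (Fin N) L).map (α g) *
      (((ρ h)⁻¹ : GL (Fin N) L) : Matrix (Fin N) (Fin N) L).map (α g) = 1 := by
    have h2 := (Matrix.map_mul (f := ((α g : L ≃ₐ[k] L) : L →+* L))
      (L := (ρ h : Matrix (Fin N) (Fin N) L))
      (M := (((ρ h)⁻¹ : GL (Fin N) L) : Matrix (Fin N) (Fin N) L)))
    rw [Units.mul_inv, Matrix.map_one _ (map_zero _) (map_one _)] at h2
    exact h2.symm
  rw [Matrix.mul_assoc, ← Matrix.mul_assoc (Matrix.map _ _), h1, Matrix.one_mul, Units.mul_inv]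

theorem act_mul (hρ : Coc α ρ) (g h : G) (p : MvPolynomial (Fin N) L) :
    act α ρ (g * h) p = act α ρ g (act α ρ h p) := by
  have h1 : ((α (g * h) : L ≃ₐ[k] L) : L →+* L) =
      ((α g : L ≃ₐ[k] L) : L →+* L).comp ((α h : L ≃ₐ[k] L) : L →+* L) := by
    rw [map_mul]
    rfl
  rw [act_apply α ρ g, act_apply α ρ h, map_ls, ls_ls, MvPolynomial.map_map, act_apply,
    hρ.inv_mul, h1]
  rfl

/-- The action. -/
@[reducible] noncomputable def mact (hρ : Coc α ρ) : MulSemiringAction G
    (MvPolynomial (Fin N) L) where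
  smul g p := act α ρ g p
  one_smul p := act_one hρ p
  mul_smul g g' p := act_mul hρ g g' p
  smul_zero _ := map_zero _
  smul_add _ := map_add _
  smul_one _ := map_one _
  smul_mul _ := map_mul _

variable (α ρ)

/-- The ring of invariants. -/
noncomputable def BT : Subalgebra k (MvPolynomial (Fin N) L) where
  carrier := {p | ∀ g : G, act α ρ g p = p}
  mul_mem' := by
    intro a b ha hb h
    rw [map_mul, ha, hb]
  one_mem' := fun h => map_one _
  add_mem' := by
    intro a b ha hb h
    rw [map_add, ha, hb]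
  zero_mem' := fun h => map_zero _
  algebraMap_mem' := fun r g => by
    rw [IsScalarTower.algebraMap_apply k L (MvPolynomial (Fin N) L)]
    change act α ρ g (C (algebraMap k L r)) = C (algebraMap k L r)
    rw [act_C, (α g).commutes]

theorem mem_BT (p : MvPolynomial (Fin N) L) : p ∈ BT α ρ ↔ ∀ g : G, act α ρ g p = p := Iff.rfl

variable {α ρ}

theorem smulComm (hρ : Coc α ρ) : letI := mact hρ
    SMulCommClass G (BT α ρ) (MvPolynomial (Fin N) L) := by
  let _ := mact hρ
  refine ⟨fun g b p => ?_⟩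
  rw [Algebra.smul_def, Algebra.smul_def]
  change act α ρ g (_ * p) = _ * act α ρ g p
  rw [map_mul]
  congr 1
  exact b.2 g

theorem isInvt (hρ : Coc α ρ) : letI := mact hρ
    Algebra.IsInvariant (BT α ρ) (MvPolynomial (Fin N) L) G := by
  let _ := mact hρ
  exact ⟨fun p hp => ⟨⟨p, hp⟩, rfl⟩⟩

theorem alg_inj : Function.Injective
    (algebraMap (BT α ρ) (MvPolynomial (Fin N) L)) := Subtype.val_injective

theorem finT (hρ : Coc α ρ) [Finite G] [FiniteDimensional k L] :
    Module.Finite (BT α ρ) (MvPolynomial (Fin N) L) ∧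
      Algebra.FiniteType k (BT α ρ) := by
  let _ := mact hρ
  have := smulComm hρ
  have := isInvt hρ
  have hint : Algebra.IsIntegral (BT α ρ) (MvPolynomial (Fin N) L) :=
    Algebra.IsInvariant.isIntegral _ _ G
  have h1 : Algebra.FiniteType k L := inferInstance
  have h2 : Algebra.FiniteType L (MvPolynomial (Fin N) L) := inferInstance
  have h3 : Algebra.FiniteType k (MvPolynomial (Fin N) L) := h1.trans h2
  have h4 : Algebra.FiniteType (BT α ρ) (MvPolynomial (Fin N) L) :=
    Algebra.FiniteType.of_restrictScalars_finiteType k _ _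
  have h5 : Module.Finite (BT α ρ) (MvPolynomial (Fin N) L) :=
    Algebra.IsIntegral.finite
  refine ⟨h5, ⟨fg_of_fg_of_fg k (BT α ρ) (MvPolynomial (Fin N) L) h3.1 h5.1 alg_inj⟩⟩

/-- The action is faithful. -/
theorem act_faithful (hf : ∀ g, α g = 1 → ρ g = 1 → g = 1) (g : G)
    (h : ∀ p, act α ρ g p = p) : g = 1 := by
  apply hf
  · apply AlgEquiv.ext
    intro a
    have h1 := h (C a)
    rw [act_C] at h1
    exact C_injective _ _ h1
  · rw [← inv_inj, inv_one]
    apply Units.ext
    rw [Units.val_one]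
    ext i j
    have h1 := h (X i)
    rw [act_apply, MvPolynomial.map_X, ls_X] at h1
    have h2 := congrArg (coeff (Finsupp.single j 1)) h1
    rw [coeff_sum, Finset.sum_eq_single j] at h2
    · rw [coeff_C_mul, coeff_X, if_pos rfl, mul_one, coeff_X] at h2
      rw [h2, Matrix.one_apply]
      by_cases hij : i = j
      · rw [if_pos hij, if_pos (by rw [hij])]
      · rw [if_neg hij, if_neg]
        intro h3
        exact hij (Finsupp.single_left_injective one_ne_zero h3)
    · intro l _ hl
      rw [coeff_C_mul, coeff_X, if_neg, mul_zero]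
      intro h3
      exact hl (Finsupp.single_left_injective one_ne_zero h3)
    · intro h3
      exact absurd (Finset.mem_univ _) h3

/-- An element with trivial stabilizer. -/
theorem exists_theta [CharZero k] [Finite G] (hf : ∀ g, α g = 1 → ρ g = 1 → g = 1) :
    ∃ θ : MvPolynomial (Fin N) L, ∀ g, act α ρ g θ = θ → g = 1 := by
  classical
  let p : {g : G // g ≠ 1} → Subspace k (MvPolynomial (Fin N) L) := fun g =>
    { carrier := {r | act α ρ g.1 r = r}
      add_mem' := fun {a b} ha hb => by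
        change act α ρ g.1 (a + b) = a + b
        rw [map_add, ha, hb]
      zero_mem' := map_zero _
      smul_mem' := fun c x hx => by
        change act α ρ g.1 (c • x) = c • x
        rw [Algebra.smul_def, map_mul, hx]
        congr 1
        exact (BT α ρ).algebraMap_mem c g.1 }
  by_contra hcon
  push Not at hcon
  obtain ⟨g, hg⟩ := Subspace.exists_eq_top_of_iUnion_eq_univ (k := k) (p := p) (by
    rw [Set.eq_univ_iff_forall]
    intro θ
    obtain ⟨g, hg1, hg2⟩ := hcon θ
    exact Set.mem_iUnion.2 ⟨⟨g, hg2⟩, hg1⟩)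
  refine g.2 (act_faithful hf g.1 fun r => ?_)
  have h1 : r ∈ p g := by
    rw [hg]
    trivial
  exact h1

/-- The branch locus. -/
theorem exists_s (hρ : Coc α ρ) [CharZero k] [Finite G]
    (hf : ∀ g, α g = 1 → ρ g = 1 → g = 1) :
    ∃ (s : BT α ρ) (θ : MvPolynomial (Fin N) L), s ≠ 0 ∧ ∀ g : G, g ≠ 1 →
      (act α ρ g θ - θ) ∣ (s : MvPolynomial (Fin N) L) := by
  classical
  have := Fintype.ofFinite G
  obtain ⟨θ, hθ⟩ := exists_theta (k := k) (α := α) (ρ := ρ) hf
  let d : MvPolynomial (Fin N) L := ∏ g ∈ Finset.univ.erase (1 : G), (act α ρ g θ - θ)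
  have hd : d ≠ 0 := by
    refine Finset.prod_ne_zero_iff.2 fun g hg => ?_
    rw [sub_ne_zero]
    exact fun h => (Finset.ne_of_mem_erase hg) (hθ g h)
  have hinj : ∀ g, Function.Injective (act α ρ g) := by
    intro g p q h
    have h1 := congrArg (act α ρ g⁻¹) h
    rwa [← act_mul hρ, ← act_mul hρ, inv_mul_cancel, act_one hρ, act_one hρ] at h1
  let s : MvPolynomial (Fin N) L := ∏ g : G, act α ρ g d
  have hs : s ≠ 0 := Finset.prod_ne_zero_iff.2 fun g _ h0 =>
    hd (hinj g (h0.trans (map_zero _).symm))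
  have hsB : s ∈ BT α ρ := by
    intro g
    change act α ρ g (∏ h : G, act α ρ h d) = ∏ h : G, act α ρ h d
    rw [map_prod]
    simp only [← act_mul hρ]
    exact Fintype.prod_equiv (Equiv.mulLeft g) _ _ fun h => rfl
  refine ⟨⟨s, hsB⟩, θ, fun h0 => hs (congrArg Subtype.val h0), fun g hg => ?_⟩
  have h1 : act α ρ (1 : G) d ∣ s := Finset.dvd_prod_of_mem (fun g : G => act α ρ g d)
    (Finset.mem_univ 1)
  rw [act_one hρ] at h1
  exact (Finset.dvd_prod_of_mem (fun g => act α ρ g θ - θ)
    (Finset.mem_erase.2 ⟨hg, Finset.mem_univ g⟩)).trans h1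

end act

end Pool.Agent.H865.TQ
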