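import Mathlib
import Pool.Graph.R_seed8.W560.HP.Stm2

/-!
# Twisted linear quotients and embedding problems: the definitions

`L/k` is a finite Galois extension, `G` a finite group and `α : G → Gal(L/k)` a surjective
homomorphism (an embedding problem over `k`).
-/

set_option autoImplicit false

open AlgebraicGeometry CategoryTheory MvPolynomial
open W560.HP (toFF)

namespace Pool.Agent.H865.TQ

/-- Hilbertian fields. -/
def IsHilbertian (K : Type) [Field K] : Prop :=
  ∀ (f : Polynomial (Polynomial K)), f.Monic → Irreducible f →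
    (f.map (algebraMap (Polynomial K) (FractionRing (Polynomial K)))).Separable →
    ∀ g : Polynomial K, g ≠ 0 →
      ∃ a : K, g.eval a ≠ 0 ∧ Irreducible (f.map (Polynomial.evalRingHom a))

/-- `k` is a finitely generated field of characteristic zero. -/
def FinitelyGenerated (k : Type) [Field k] [CharZero k] : Prop :=
  ∃ S : Finset k, IntermediateField.adjoin ℚ (S : Set k) = ⊤

section quotients

variable {k L G : Type} [Field k] [Field L] [Algebra k L] [Group G] (α : G →* (L ≃ₐ[k] L)) {N : ℕ}
  (ρ : G → GL (Fin N) L)

/-- `g • v = ρ(g) α(g)(v)` is a semilinear action of `G` on `L^N`: the cocycle condition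
`ρ(g h) = ρ(g) α(g)(ρ(h))`. -/
def IsSemilinear : Prop :=
  ∀ g h : G, (ρ (g * h) : Matrix (Fin N) (Fin N) L) =
    (ρ g : Matrix (Fin N) (Fin N) L) * (ρ h : Matrix (Fin N) (Fin N) L).map (α g)

/-- No element of `G` except `1` acts trivially on `L^N`. -/
def IsFaithful : Prop := ∀ g : G, α g = 1 → ρ g = 1 → g = 1

/-- The rational function `z ∈ L(x_1, ..., x_N)` is invariant under `G`: whenever `z = p / q` with
polynomials `p`, `q` over `L`, then `p^α(g)(x) / q^α(g)(x) = p(ρ(g) x) / q(ρ(g) x)` for all `g`,
where `α(g)` is applied to the coefficients. -/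
def IsInvariant (z : FractionRing (MvPolynomial (Fin N) L)) : Prop :=
  ∀ (g : G) (p q : MvPolynomial (Fin N) L), q ≠ 0 → z * algebraMap _ _ q = algebraMap _ _ p →
    map ((α g : L ≃ₐ[k] L) : L →+* L) p *
        aeval (fun i => ∑ j, C ((ρ g : Matrix (Fin N) (Fin N) L) i j) * X j) q =
      aeval (fun i => ∑ j, C ((ρ g : Matrix (Fin N) (Fin N) L) i j) * X j) p *
        map ((α g : L ≃ₐ[k] L) : L →+* L) q

/-- The function field of the integral `k`-scheme `X` is, as an extension of `k`, the field
`L(x_1, ..., x_N)^G` of the invariant rational functions. -/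
def IsQuotientModel (k : Type) [Field k] {L G : Type} [Field L] [Algebra k L] [Group G]
    (α : G →* (L ≃ₐ[k] L)) {N : ℕ} (ρ : G → GL (Fin N) L) (X : Scheme.{0}) [IsIntegral X]
    (p : X ⟶ Spec (CommRingCat.of k)) : Prop :=
  ∃ e : X.functionField →+* FractionRing (MvPolynomial (Fin N) L),
    (∀ a : k, e (toFF k X p a) =
      algebraMap (MvPolynomial (Fin N) L) _ (C (algebraMap k L a))) ∧
    Set.range e = {z | IsInvariant α ρ z}

end quotients

section schemes

/-- The `k`-points of `X` are Zariski dense. -/
def DensePoints (k : Type) [Field k] (X : Scheme.{0}) (p : X ⟶ Spec (CommRingCat.of k)) : Prop :=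
  Dense {x : X | ∃ s : Spec (CommRingCat.of k) ⟶ X, s ≫ p = 𝟙 _ ∧ x ∈ Set.range s.base}

/-- `X` is unirational over `k`: its function field embeds over `k` in a field of rational
functions in finitely many variables. -/
def IsUnirational (k : Type) [Field k] (X : Scheme.{0}) [IsIntegral X]
    (p : X ⟶ Spec (CommRingCat.of k)) : Prop :=
  ∃ (ι : Type) (_ : Finite ι) (φ : X.functionField →+* FractionRing (MvPolynomial ι k)),
    ∀ a : k, φ (toFF k X p a) = algebraMap k (FractionRing (MvPolynomial ι k)) a

end schemes

section problems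

variable (k L G : Type) [Field k] [Field L] [Algebra k L] [Group G] (α : G →* (L ≃ₐ[k] L))

/-- The embedding problem `α` has a weak solution: a homomorphism `η : Gal(F/k) → G`, `F ⊇ L`
finite Galois over `k`, such that `σ` acts on `L` as `α(η(σ))`. -/
def WeaklySolvable : Prop :=
  ∃ (F : Type) (_ : Field F) (_ : Algebra k F) (_ : Algebra L F) (_ : IsScalarTower k L F)
    (_ : FiniteDimensional k F) (_ : IsGalois k F) (η : (F ≃ₐ[k] F) →* G),
    ∀ (σ : F ≃ₐ[k] F) (x : L), σ (algebraMap L F x) = algebraMap L F (α (η σ) x)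

/-- The embedding problem `α` has a proper solution: an isomorphism `γ : Gal(F/k) → G`, `F ⊇ L`
finite Galois over `k`, such that `σ` acts on `L` as `α(γ(σ))`. -/
def ProperlySolvable : Prop :=
  ∃ (F : Type) (_ : Field F) (_ : Algebra k F) (_ : Algebra L F) (_ : IsScalarTower k L F)
    (_ : FiniteDimensional k F) (_ : IsGalois k F) (γ : (F ≃ₐ[k] F) ≃* G),
    ∀ (σ : F ≃ₐ[k] F) (x : L), σ (algebraMap L F x) = algebraMap L F (α (γ σ) x)

/-- The embedding problem `α` has a regular solution over `k(t)`: a finite Galois extension `F`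
of `k(t)` containing `L`, in which `L` is algebraically closed, with an isomorphism
`γ : Gal(F/k(t)) → G` such that `σ` acts on `L` as `α(γ(σ))`. -/
def RegularlySolvable : Prop :=
  ∃ (F : Type) (_ : Field F) (_ : Algebra (RatFunc k) F) (_ : Algebra L F)
    (_ : Algebra k F) (_ : IsScalarTower k (RatFunc k) F) (_ : IsScalarTower k L F)
    (_ : FiniteDimensional (RatFunc k) F) (_ : IsGalois (RatFunc k) F)
    (γ : (F ≃ₐ[RatFunc k] F) ≃* G),
    (∀ (σ : F ≃ₐ[RatFunc k] F) (x : L),
        σ (algebraMap L F x) = algebraMap L F (α (γ σ) x)) ∧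
    ∀ y : F, IsAlgebraic L y → y ∈ Set.range (algebraMap L F)

/-- The `m`-th fibre power of `α`: the group of all `(g, σ)`, `g ∈ G^m` and `σ ∈ Gal(L/k)`, with
`α(g_i) = σ` for all `i`. -/
def FibrePower (m : ℕ) : Subgroup ((Fin m → G) × (L ≃ₐ[k] L)) where
  carrier := {x | ∀ i, α (x.1 i) = x.2}
  one_mem' := fun _ => map_one α
  mul_mem' := by
    intro a b ha hb i
    change α (a.1 i * b.1 i) = a.2 * b.2
    rw [map_mul, ha i, hb i]
  inv_mem' := by
    intro a ha i
    change α (a.1 i)⁻¹ = a.2⁻¹
    rw [map_inv, ha i]

/-- The projection of the fibre power to `Gal(L/k)`, again an embedding problem; its kernel is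
`(ker α)^m`. -/
def fibreProj (m : ℕ) : FibrePower k L G α m →* (L ≃ₐ[k] L) :=
  (MonoidHom.snd _ _).comp (FibrePower k L G α m).subtype

end problems

section kernels

open scoped commutatorElement

/-- `H` has a composition series all of whose factors are alternating groups of degree `d ≥ 5`,
`d ≠ 6`. -/
inductive AltSeries : ∀ (H : Type) [Group H], Prop
  /-- the trivial group -/
  | one (H : Type) [Group H] (h : Subsingleton H) : AltSeries H
  /-- one more factor on top -/
  | ext (H : Type) [Group H] (M : Subgroup H) [M.Normal] (hM : AltSeries M) (d : ℕ) (h5 : 5 ≤ d)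
      (h6 : d ≠ 6) (e : Nonempty ((H ⧸ M) ≃* alternatingGroup (Fin d))) : AltSeries H

/-- The smallest class of groups which contains the commutative groups and contains `H` whenever
it contains
- `H / [T, M]`, for characteristic subgroups `T ≤ M` of `H` such that `T` is commutative and the
  order of `T` is prime to the index of `T` in `M`, or
- `H / A`, for a characteristic subgroup `A` of `H` all of whose composition factors are
  alternating groups of degree `d ≥ 5`, `d ≠ 6`. -/
inductive GoodKernel : ∀ (H : Type) [Group H], Prop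
  /-- commutative groups -/
  | comm (H : Type) [Group H] (h : ∀ x y : H, x * y = y * x) : GoodKernel H
  /-- coprime commutators -/
  | coprime (H : Type) [Group H] (T M : Subgroup H) [T.Characteristic] [M.Characteristic]
      (hTM : T ≤ M) (hab : ∀ x ∈ T, ∀ y ∈ T, x * y = y * x)
      (hco : (Nat.card T).Coprime (T.relIndex M)) (h : GoodKernel (H ⧸ ⁅T, M⁆)) : GoodKernel H
  /-- alternating composition factors -/
  | alternating (H : Type) [Group H] (A : Subgroup H) [A.Characteristic] (hA : AltSeries A)
      (h : GoodKernel (H ⧸ A)) : GoodKernel H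

end kernels

end Pool.Agent.H865.TQ
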