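import Mathlib
import Pool.Agent.H865.TQ.Act
import Pool.Graph.R_seed8.W253.HP.Sch
import Pool.Graph.R_seed8.TH178.HI.Point
import Pool.Graph.R_seed8.W405.HP.Hit

/-!
# Rational points and decomposition groups
-/

set_option autoImplicit false

namespace Pool.Agent.H865.TQ

open Pool.Agent.K3h17.HQ (ls FR U U_alg Mf Mf_alg AvAll avAll_emb)
open Pool.Agent.TH178.HI (DensePoints)
open AlgebraicGeometry CategoryTheory W560.HP
open scoped Pointwise

section dec

variable {B R : Type} (Γ : Type) [CommRing B] [CommRing R] [Algebra B R]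
  [Group Γ] [MulSemiringAction Γ R] [SMulCommClass Γ B R]

attribute [local instance] Ideal.Quotient.field in
/-- The decomposition group at a rational point. -/
theorem dec_gen {k : Type} [Field k] [CharZero k] [Algebra k B] [Algebra k R]
    [IsScalarTower k B R] [Finite Γ] [Algebra.IsInvariant B R Γ] [FaithfulSMul B R]
    (φ : B →ₐ[k] k) :
    ∃ (κ : Type) (_ : Field κ) (_ : Algebra k κ) (q : R →ₐ[k] κ) (D : Subgroup Γ)
      (θ : D →* (κ ≃ₐ[k] κ)),
      Function.Surjective q ∧ FiniteDimensional k κ ∧ IsGalois k κ ∧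
      (∀ b : B, q (algebraMap B R b) = algebraMap k κ (φ b)) ∧ Function.Surjective θ ∧
      ∀ (g : D) x, θ g (q x) = q ((g : Γ) • x) := by
  classical
  let P : Ideal B := RingHom.ker φ
  have hφs : Function.Surjective φ := fun a => ⟨algebraMap k B a, φ.commutes a⟩
  have hPm : P.IsMaximal := RingHom.ker_isMaximal_of_surjective φ.toRingHom hφs
  have hint : Algebra.IsIntegral B R := Algebra.IsInvariant.isIntegral B R Γ
  obtain ⟨Q, hQm, hQP⟩ := Ideal.exists_maximal_ideal_liesOver_of_isIntegral (S := R) P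
  -- constants
  have hconst : ∀ b : B, ∃ a : k, Ideal.Quotient.mk P b = Ideal.Quotient.mk P (algebraMap k B a) := by
    intro b
    refine ⟨φ b, ?_⟩
    rw [Ideal.Quotient.eq]
    change φ (b - algebraMap k B (φ b)) = 0
    rw [map_sub, φ.commutes]
    exact sub_self _
  have hbQ : ∀ b : B, Ideal.Quotient.mk Q (algebraMap B R b) =
      Ideal.Quotient.mk Q (algebraMap k R (φ b)) := by
    intro b
    rw [Ideal.Quotient.eq, IsScalarTower.algebraMap_apply k B R, ← map_sub]
    have h1 : b - algebraMap k B (φ b) ∈ P := by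
      change φ (b - algebraMap k B (φ b)) = 0
      rw [map_sub, φ.commutes]
      exact sub_self _
    rw [Ideal.over_def Q P] at h1
    exact h1
  have hcP : CharZero (B ⧸ P) := charZero_of_injective_algebraMap (algebraMap k (B ⧸ P)).injective
  have hnor : Normal (B ⧸ P) (R ⧸ Q) := Ideal.Quotient.normal Γ P Q
  have hsep : Algebra.IsSeparable (B ⧸ P) (R ⧸ Q) := inferInstance
  have hgal : IsGalois (B ⧸ P) (R ⧸ Q) := ⟨⟩
  have hfin : Module.Finite (B ⧸ P) (R ⧸ Q) := Ideal.Quotient.finite_of_isInvariant Γ P Q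
  have hst := Ideal.Quotient.stabilizerHom_surjective (A := B) (B := R) Γ P Q
  have hTk : ∀ a : k, algebraMap k (R ⧸ Q) a =
      algebraMap (B ⧸ P) (R ⧸ Q) (Ideal.Quotient.mk P (algebraMap k B a)) := by
    intro a
    change Ideal.Quotient.mk Q (algebraMap k R a) = Ideal.Quotient.mk Q (algebraMap B R _)
    rw [IsScalarTower.algebraMap_apply k B R]
  let res : ((R ⧸ Q) ≃ₐ[B ⧸ P] (R ⧸ Q)) →* ((R ⧸ Q) ≃ₐ[k] (R ⧸ Q)) :=
    { toFun := fun f => AlgEquiv.ofRingEquiv (f := f.toRingEquiv) fun a => by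
        rw [hTk]
        exact f.commutes _
      map_one' := rfl
      map_mul' := fun x y => rfl }
  have hres : Function.Surjective res := by
    intro f
    refine ⟨AlgEquiv.ofRingEquiv (f := f.toRingEquiv) fun y => ?_, ?_⟩
    · obtain ⟨b, rfl⟩ := Ideal.Quotient.mk_surjective y
      obtain ⟨a, ha⟩ := hconst b
      rw [ha, ← hTk]
      exact f.commutes a
    · apply AlgEquiv.ext
      intro x
      rfl
  let f₀ : (B ⧸ P) ≃+* k := (Ideal.quotEquivOfEq rfl).trans
    (RingHom.quotientKerEquivOfSurjective (f := φ.toRingHom) hφs)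
  have hf₀ : ∀ b, f₀ (Ideal.Quotient.mk P b) = φ b := fun b => rfl
  have hcomp : (algebraMap k (R ⧸ Q)).comp (f₀ : (B ⧸ P) →+* k) =
      ((RingEquiv.refl (R ⧸ Q)) : (R ⧸ Q) →+* (R ⧸ Q)).comp (algebraMap (B ⧸ P) (R ⧸ Q)) := by
    apply RingHom.ext
    intro y
    obtain ⟨b, rfl⟩ := Ideal.Quotient.mk_surjective y
    change algebraMap k (R ⧸ Q) (f₀ (Ideal.Quotient.mk P b)) = Ideal.Quotient.mk Q (algebraMap B R b)
    rw [hf₀, hbQ]
    rfl
  have hgk : IsGalois k (R ⧸ Q) := IsGalois.of_equiv_equiv hcomp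
  have hfk : FiniteDimensional k (R ⧸ Q) := by
    have hfg : Finite ((R ⧸ Q) ≃ₐ[k] (R ⧸ Q)) :=
      Finite.of_surjective _ (hres.comp hst)
    exact IsGalois.finiteDimensional_of_finite _ _
  exact ⟨R ⧸ Q, inferInstance, inferInstance, Ideal.Quotient.mkₐ k Q,
    MulAction.stabilizer Γ Q, res.comp (Ideal.Quotient.stabilizerHom Q P Γ),
    Ideal.Quotient.mkₐ_surjective k Q, hfk, hgk, hbQ, hres.comp hst, fun g x => rfl⟩

end dec

section pt

variable {k L : Type} [Field k] [CharZero k] [Field L] [Algebra k L] [FiniteDimensional k L]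
  {G : Type} [Group G] [Finite G] {α : G →* (L ≃ₐ[k] L)} {N : ℕ} {ρ : G → GL (Fin N) L}

/-- A rational point outside of the branch locus gives a weak solution. -/
theorem weak_of_point (hρ : Coc α ρ) (φ : BT α ρ →ₐ[k] k) (s : BT α ρ)
    (θ₀ : MvPolynomial (Fin N) L) (hs : ∀ g : G, g ≠ 1 →
      (act α ρ g θ₀ - θ₀) ∣ (s : MvPolynomial (Fin N) L)) (hφ : φ s ≠ 0) : WeakT k L α := by
  let _ : MulSemiringAction G (MvPolynomial (Fin N) L) := mact hρ
  have i1 : SMulCommClass G (BT α ρ) (MvPolynomial (Fin N) L) := smulComm hρ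
  have i2 : Algebra.IsInvariant (BT α ρ) (MvPolynomial (Fin N) L) G := isInvt hρ
  have i6 : FaithfulSMul (BT α ρ) (MvPolynomial (Fin N) L) :=
    (faithfulSMul_iff_algebraMap_injective _ _).2 alg_inj
  obtain ⟨κ, j1, j2, q, D, θ, hqs, j3, j4, hqb, hθs, hθ⟩ := dec_gen (B := BT α ρ)
    (R := MvPolynomial (Fin N) L) G φ
  have hsm : ∀ (g : G) (x : MvPolynomial (Fin N) L), g • x = act α ρ g x := fun g x => rfl
  let cL : L →+* κ := q.toRingHom.comp MvPolynomial.C
  have hθi : Function.Injective θ := by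
    rw [injective_iff_map_eq_one]
    intro g hg
    by_contra hne
    have h1 : (g : G) ≠ 1 := fun h => hne (Subtype.ext h)
    have h2 := hθ g θ₀
    rw [hg] at h2
    have h3 : q θ₀ = q (act α ρ g θ₀) := h2
    obtain ⟨t, ht⟩ := hs g h1
    have h4 := hqb s
    have h5 : algebraMap (BT α ρ) (MvPolynomial (Fin N) L) s = (s : MvPolynomial (Fin N) L) := rfl
    rw [h5, ht, map_mul, map_sub, ← h3, sub_self, zero_mul] at h4
    exact hφ ((map_eq_zero_iff _ (algebraMap k κ).injective).1 h4.symm)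
  let γ : D ≃* (κ ≃ₐ[k] κ) := MulEquiv.ofBijective θ ⟨hθi, hθs⟩
  let aL : Algebra L κ := cL.toAlgebra
  have hT : IsScalarTower k L κ := IsScalarTower.of_algebraMap_eq fun a => by
    change algebraMap k κ a = q (MvPolynomial.C (algebraMap k L a))
    rw [← q.commutes]
    congr 1
  refine ⟨κ, j1, j2, aL, hT, j3, j4, D.subtype.comp γ.symm.toMonoidHom, fun σ x => ?_⟩
  obtain ⟨g, rfl⟩ := γ.surjective σ
  have h1 : (D.subtype.comp γ.symm.toMonoidHom) (γ g) = (g : G) :=
    congrArg Subtype.val (γ.symm_apply_apply g)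
  rw [h1]
  change θ g (q (MvPolynomial.C x)) = q (MvPolynomial.C (α g x))
  rw [hθ, hsm, act_C]

omit [FiniteDimensional k L] [Finite G] [CharZero k] in
/-- The inclusion of the ring of invariants. -/
theorem exists_bt (hρ : Coc α ρ) : ∃ ι : BT α ρ →ₐ[k] TInv α ρ, Function.Injective ι ∧
    ∀ b, ((ι b : TInv α ρ) : FR N L) = algebraMap (MvPolynomial (Fin N) L) (FR N L) b := by
  have h1 : ∀ b : BT α ρ, algebraMap (MvPolynomial (Fin N) L) (FR N L) b ∈ TInv α ρ := by
    intro b g
    rw [U_alg, Mf_alg]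
    congr 1
    have h2 := congrArg (ls ((ρ g : GL (Fin N) L) : Matrix (Fin N) (Fin N) L)) (b.2 g)
    rw [act_apply, Pool.Agent.K3h17.HQ.ls_ls, Units.inv_mul, Pool.Agent.K3h17.HQ.ls_one] at h2
    exact h2
  refine ⟨
    { toFun := fun b => ⟨_, h1 b⟩
      map_one' := ?_
      map_mul' := ?_
      map_zero' := ?_
      map_add' := ?_
      commutes' := ?_ }, ?_, fun b => rfl⟩
  · exact Subtype.ext (map_one _)
  · exact fun x y => Subtype.ext (map_mul _ _ _)
  · exact Subtype.ext (map_zero _)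
  · exact fun x y => Subtype.ext (map_add _ _ _)
  · intro r
    apply Subtype.ext
    exact (IsScalarTower.algebraMap_apply k (MvPolynomial (Fin N) L) (FR N L) r).symm
  · intro x y hxy
    apply Subtype.ext
    exact IsFractionRing.injective (MvPolynomial (Fin N) L) (FR N L) (congrArg Subtype.val hxy)

end pt

/-- Points of an algebra of finite type from places. -/
theorem exists_pt {k B K : Type} [Field k] [CommRing B] [Algebra k B] [Algebra.FiniteType k B]
    [Field K] [Algebra k K] (ι : B →ₐ[k] K) (hι : Function.Injective ι)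
    (hp : ∀ (τ : Type) [Finite τ] (y : τ → K), ∃ a : τ → k, ∀ P : MvPolynomial τ k,
      MvPolynomial.aeval y P = 0 → MvPolynomial.eval a P = 0) (s : B) (hs : s ≠ 0) :
    ∃ φ : B →ₐ[k] k, φ s ≠ 0 := by
  obtain ⟨n, f, hf⟩ := Algebra.FiniteType.iff_quotient_mvPolynomial''.1
    (inferInstance : Algebra.FiniteType k B)
  let y : Option (Fin n) → K := fun o => o.elim (ι s)⁻¹ fun i => ι (f (MvPolynomial.X i))
  obtain ⟨a, ha⟩ := hp (Option (Fin n)) y
  let e₀ : MvPolynomial (Fin n) k →ₐ[k] k := MvPolynomial.aeval fun i => a (some i)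
  have hy : ∀ P : MvPolynomial (Fin n) k,
      MvPolynomial.aeval y (MvPolynomial.rename some P) = ι (f P) := by
    intro P
    rw [MvPolynomial.aeval_rename]
    have h1 : (MvPolynomial.aeval (y ∘ some) : MvPolynomial (Fin n) k →ₐ[k] K) = ι.comp f := by
      apply MvPolynomial.algHom_ext
      intro i
      rw [MvPolynomial.aeval_X]
      rfl
    rw [h1]
    rfl
  have he : ∀ P : MvPolynomial (Fin n) k,
      MvPolynomial.eval a (MvPolynomial.rename some P) = e₀ P := by
    intro P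
    rw [MvPolynomial.eval_rename]
    rfl
  have hker : RingHom.ker (f : MvPolynomial (Fin n) k →+* B) ≤
      RingHom.ker (e₀ : MvPolynomial (Fin n) k →+* k) := by
    intro P hP
    have h1 : f P = 0 := hP
    have h2 := ha (MvPolynomial.rename some P) (by rw [hy, h1, map_zero])
    rw [he] at h2
    exact h2
  let φ₀ : B →+* k := RingHom.liftOfSurjective (f : MvPolynomial (Fin n) k →+* B) hf
    ⟨(e₀ : MvPolynomial (Fin n) k →+* k), hker⟩
  have hφ₀ : ∀ P, φ₀ (f P) = e₀ P := fun P =>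
    RingHom.liftOfSurjective_comp_apply (f : MvPolynomial (Fin n) k →+* B) hf
      ⟨(e₀ : MvPolynomial (Fin n) k →+* k), hker⟩ P
  refine ⟨{ φ₀ with commutes' := fun r => ?_ }, fun h0 => ?_⟩
  · change φ₀ (algebraMap k B r) = r
    rw [← f.commutes, hφ₀, AlgHom.commutes]
    rfl
  · obtain ⟨S, rfl⟩ := hf s
    have h0' : e₀ S = 0 := (hφ₀ S).symm.trans h0
    have h1 := ha (MvPolynomial.X none * MvPolynomial.rename some S - 1) (by
      rw [map_sub, map_mul, MvPolynomial.aeval_X, hy, map_one]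
      change (ι (f S))⁻¹ * ι (f S) - 1 = 0
      rw [inv_mul_cancel₀, sub_self]
      rw [Ne, map_eq_zero_iff _ hι]
      exact hs)
    rw [map_sub, map_mul, he, h0', mul_zero, map_one, zero_sub] at h1
    exact one_ne_zero (neg_eq_zero.1 h1)

/-- Density of the rational points from places. -/
theorem dense_of_places (k : Type) [Field k] (X : Scheme.{0}) [IsIntegral X]
    (f : X ⟶ Spec (CommRingCat.of k)) [LocallyOfFiniteType f] (K : Type) [Field K] [Algebra k K]
    (e : X.functionField ≃+* K) (he : ∀ a : k, e (toFF k X f a) = algebraMap k K a)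
    (h : ∀ S : Finset K, ∃ (B : Subalgebra k K) (_ : B →ₐ[k] k), (S : Set K) ⊆ B) :
    DensePoints k X f := by
  classical
  unfold DensePoints
  rw [dense_iff_inter_open]
  rintro W hW ⟨w, hw⟩
  obtain ⟨U, hU, hwU, hUW⟩ := exists_isAffineOpen_mem_and_subset (X := X) (x := w)
    (U := ⟨W, hW⟩) hw
  have hneU : Nonempty U := ⟨⟨w, hwU⟩⟩
  have htop : U ≤ f ⁻¹ᵁ ⊤ := le_top
  let ι0 : k →+* Γ(X, U) := (f.appLE ⊤ U htop).hom.comp
    (Scheme.ΓSpecIso (CommRingCat.of k)).inv.hom
  let _ : Algebra k Γ(X, U) := ι0.toAlgebra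
  have hft : ι0.FiniteType := by
    have h1 : (f.appLE ⊤ U htop).hom.FiniteType :=
      f.finiteType_appLE (isAffineOpen_top _) hU htop
    refine h1.comp (RingHom.FiniteType.of_surjective _ ?_)
    exact (ConcreteCategory.bijective_of_isIso (Scheme.ΓSpecIso (CommRingCat.of k)).inv).2
  have : Algebra.FiniteType k Γ(X, U) := hft
  have := functionField_isFractionRing_of_isAffineOpen X U hU
  let ψ0 : Γ(X, U) →+* K := (e : X.functionField →+* K).comp
    (algebraMap Γ(X, U) X.functionField)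
  have hψ0 : ∀ a : k, ψ0 (ι0 a) = algebraMap k K a := by
    intro a
    rw [← he a]
    refine congrArg e ?_
    have hg := (genericPoint_spec X).mem_open_set_iff U.isOpen
    exact X.presheaf.germ_res_apply (homOfLE (le_top : U ≤ ⊤)) (genericPoint X)
      (hg.mpr (by simpa using hneU))
      (f.appTop.hom ((Scheme.ΓSpecIso (CommRingCat.of k)).inv.hom a))
  let ψ : Γ(X, U) →ₐ[k] K := { ψ0 with commutes' := hψ0 }
  obtain ⟨S, hS⟩ := (Algebra.FiniteType.out : (⊤ : Subalgebra k Γ(X, U)).FG)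
  obtain ⟨B, φ, hSB⟩ := h (S.image ψ)
  have hB : ∀ a : Γ(X, U), ψ a ∈ B := by
    intro a
    have h1 : (⊤ : Subalgebra k Γ(X, U)).map ψ ≤ B := by
      rw [← hS, AlgHom.map_adjoin]
      refine Algebra.adjoin_le ?_
      rwa [Finset.coe_image] at hSB
    exact h1 ⟨a, Algebra.mem_top, rfl⟩
  let x : Γ(X, U) →ₐ[k] k := φ.comp (ψ.codRestrict B hB)
  let xc : Γ(X, U) ⟶ CommRingCat.of k := CommRingCat.ofHom (x : Γ(X, U) →+* k)
  obtain ⟨p⟩ : Nonempty (Spec (CommRingCat.of k)) := inferInstance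
  have hs : (Spec.map xc ≫ hU.fromSpec) p ∈ U := by
    have h1 : Set.range hU.fromSpec = (U : Set X) := hU.range_fromSpec
    have h2 : hU.fromSpec (Spec.map xc p) ∈ (U : Set X) := by
      rw [← h1]
      exact ⟨_, rfl⟩
    rwa [Scheme.Hom.comp_apply]
  refine ⟨(Spec.map xc ≫ hU.fromSpec) p, hUW hs, Spec.map xc ≫ hU.fromSpec, ?_, ⟨p, rfl⟩⟩
  rw [Category.assoc, ← IsAffineOpen.SpecMap_appLE_fromSpec f (isAffineOpen_top _) hU htop,
    IsAffineOpen.fromSpec_top, Scheme.isoSpec_Spec_inv, ← Spec.map_comp, ← Spec.map_comp]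
  have h1 : ((Scheme.ΓSpecIso (CommRingCat.of k)).inv ≫ f.appLE ⊤ U htop) ≫ xc = 𝟙 _ := by
    ext a
    exact x.commutes a
  rw [h1, Spec.map_id]

/-- Density of the rational points of a unirational variety. -/
theorem dense_of_uni (k : Type) [Field k] (hk : HilbNR k) (X : Scheme.{0}) [IsIntegral X]
    (f : X ⟶ Spec (CommRingCat.of k)) [LocallyOfFiniteType f] (K : Type) [Field K] [Algebra k K]
    (e : X.functionField ≃+* K) (he : ∀ a : k, e (toFF k X f a) = algebraMap k K a) {Ω ι : Type}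
    [Finite ι] [Field Ω] [Algebra k Ω] (t : ι → Ω) (ht : AlgebraicIndependent k t)
    (htop : IntermediateField.adjoin k (Set.range t) = ⊤) (j : K →ₐ[k] Ω) :
    DensePoints k X f := by
  refine dense_of_places k X f K e he fun S => ?_
  obtain ⟨B, φ, -, hS, -, -⟩ := avAll_emb (q := 0) t j hk ht htop (fun i => i.elim0) S
    fun i => i.elim0
  exact ⟨B, φ, hS⟩

end Pool.Agent.H865.TQ
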