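import Mathlib
import Pool.Agent.H865.TQ.Defs
import Pool.Agent.H865.TQ.Pts
import Pool.Graph.R_seed8.W376.HP.NRM
import Pool.Graph.R_seed8.R70.HC.Defs

/-!
# The schemes with function field `L(x_1, ..., x_N)^G`
-/

set_option autoImplicit false

namespace Pool.Agent.H865.TQ

open AlgebraicGeometry CategoryTheory MvPolynomial W560.HP
open Pool.Agent.K3h17.HQ (ls ls_inj FR U U_alg Mf Mf_alg)
open Pool.Agent.R70.HC (HilbertPropertyIso)

section model

variable {k L : Type} [Field k] [Field L] [Algebra k L] {G : Type} [Group G]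
  {α : G →* (L ≃ₐ[k] L)} {N : ℕ} {ρ : G → GL (Fin N) L}

theorem isInv_iff (z : FractionRing (MvPolynomial (Fin N) L)) :
    IsInvariant α ρ z ↔ z ∈ TInv α ρ := by
  have hinj : Function.Injective (algebraMap (MvPolynomial (Fin N) L) (FR N L)) :=
    IsFractionRing.injective (MvPolynomial (Fin N) L) (FR N L)
  rw [mem_TInv]
  constructor
  · intro hz g
    obtain ⟨p, q, hq, rfl⟩ := IsFractionRing.div_surjective (A := MvPolynomial (Fin N) L) z
    have hq0 : q ≠ 0 := nonZeroDivisors.ne_zero hq
    have hq1 : algebraMap (MvPolynomial (Fin N) L) (FR N L) q ≠ 0 := by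
      rw [Ne, map_eq_zero_iff _ hinj]
      exact hq0
    have h1 := hz g p q hq0 (div_mul_cancel₀ _ hq1)
    have hq2 : algebraMap (MvPolynomial (Fin N) L) (FR N L) (ls (ρ g : Matrix _ _ L) q) ≠ 0 := by
      rw [Ne, map_eq_zero_iff _ hinj]
      intro h3
      exact hq0 (ls_inj (Units.isUnit (ρ g)) (h3.trans (map_zero _).symm))
    have hq3 : algebraMap (MvPolynomial (Fin N) L) (FR N L)
        (MvPolynomial.map ((α g : L ≃ₐ[k] L) : L →+* L) q) ≠ 0 := by
      rw [Ne, map_eq_zero_iff _ hinj]
      intro h3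
      exact hq0 (MvPolynomial.map_injective _ (RingHom.injective _) (h3.trans (map_zero _).symm))
    rw [map_div₀, map_div₀, U_alg, U_alg, Mf_alg, Mf_alg, div_eq_div_iff hq3 hq2, ← map_mul,
      ← map_mul]
    exact congrArg _ h1
  · intro hz g p q hq hpq
    have h1 := congrArg (U (Units.isUnit (ρ g))) hpq
    have h2 := congrArg (Mf N ((α g : L ≃ₐ[k] L) : L →+* L)) hpq
    rw [map_mul, U_alg, U_alg] at h1
    rw [map_mul, hz g, Mf_alg, Mf_alg] at h2
    apply hinj
    rw [map_mul, map_mul]
    change algebraMap (MvPolynomial (Fin N) L) (FR N L) _ *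
      algebraMap _ _ (ls (ρ g : Matrix _ _ L) q) =
        algebraMap _ _ (ls (ρ g : Matrix _ _ L) p) * algebraMap _ _ _
    rw [← h1, ← h2]
    ring

theorem exists_equiv {X : Scheme.{0}} [IsIntegral X] {p : X ⟶ Spec (CommRingCat.of k)}
    (h : IsQuotientModel k α ρ X p) :
    ∃ e : X.functionField ≃+* TInv α ρ, ∀ a : k, e (toFF k X p a) =
      algebraMap k (TInv α ρ) a := by
  obtain ⟨e, he, hr⟩ := h
  have h1 : ∀ x, e x ∈ TInv α ρ := by
    intro x
    have h2 : e x ∈ Set.range e := ⟨x, rfl⟩
    rw [hr] at h2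
    exact (isInv_iff _).1 h2
  let e' : X.functionField →+* TInv α ρ := e.codRestrict (TInv α ρ) h1
  refine ⟨RingEquiv.ofBijective e' ⟨e'.injective, fun z => ?_⟩, fun a => ?_⟩
  · have h2 : (z : FR N L) ∈ Set.range e := by
      rw [hr]
      exact (isInv_iff _).2 z.2
    obtain ⟨x, hx⟩ := h2
    exact ⟨x, Subtype.ext hx⟩
  · apply Subtype.ext
    change e (toFF k X p a) = ((algebraMap k (TInv α ρ) a : TInv α ρ) : FR N L)
    rw [he]
    have h2 : ((algebraMap k (TInv α ρ) a : TInv α ρ) : FR N L) = algebraMap k (FR N L) a := rfl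
    rw [h2, IsScalarTower.algebraMap_apply k (MvPolynomial (Fin N) L) (FR N L)]
    rfl

theorem model_of_equiv {X : Scheme.{0}} [IsIntegral X] {p : X ⟶ Spec (CommRingCat.of k)}
    (e : X.functionField ≃+* TInv α ρ) (he : ∀ a : k, e (toFF k X p a) =
      algebraMap k (TInv α ρ) a) : IsQuotientModel k α ρ X p := by
  refine ⟨(algebraMap (TInv α ρ) (FR N L)).comp (e : X.functionField →+* TInv α ρ),
    fun a => ?_, ?_⟩
  · change ((e (toFF k X p a) : TInv α ρ) : FR N L) = _
    rw [he]
    have h2 : ((algebraMap k (TInv α ρ) a : TInv α ρ) : FR N L) = algebraMap k (FR N L) a := rfl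
    rw [h2, IsScalarTower.algebraMap_apply k (MvPolynomial (Fin N) L) (FR N L)]
    rfl
  · ext z
    constructor
    · rintro ⟨x, rfl⟩
      exact (isInv_iff _).2 (e x).2
    · intro hz
      have h1 : z ∈ TInv α ρ := (isInv_iff _).1 hz
      exact ⟨e.symm ⟨z, h1⟩, by
        change ((e (e.symm ⟨z, h1⟩) : TInv α ρ) : FR N L) = z
        rw [RingEquiv.apply_symm_apply]⟩

end model

/-- Dense rational points, unirationality and weak solvability. -/
theorem tfae_dense (k : Type) [Field k] [CharZero k] (hk : IsHilbertian k) (L : Type) [Field L]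
    [Algebra k L] [FiniteDimensional k L] (G : Type) [Group G] [Finite G]
    (α : G →* (L ≃ₐ[k] L)) (N : ℕ) (ρ : G → GL (Fin N) L) (hρ : IsSemilinear α ρ)
    (hf : IsFaithful α ρ) (X : Scheme.{0}) [IsIntegral X] (p : X ⟶ Spec (CommRingCat.of k))
    [LocallyOfFiniteType p] (hX : IsQuotientModel k α ρ X p) :
    [DensePoints k X p, IsUnirational k X p, WeaklySolvable k L G α].TFAE := by
  obtain ⟨e, he⟩ := exists_equiv hX
  have hNR : HilbNR k := Pool.Agent.W405.HP.hit k hk
  tfae_have 1 → 3 := by
    intro h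
    obtain ⟨h5, h6⟩ := finT (α := α) (ρ := ρ) hρ
    obtain ⟨s, θ₀, hs0, hs⟩ := exists_s (k := k) (α := α) (ρ := ρ) hρ hf
    obtain ⟨ι, hι, -⟩ := exists_bt (α := α) (ρ := ρ) hρ
    obtain ⟨φ, hφ⟩ := exists_pt ι hι (fun τ _ y =>
      Pool.Agent.TH178.HI.exists_place k X p h (TInv α ρ) e he y) s hs0
    exact weak_of_point hρ φ s θ₀ hs hφ
  tfae_have 3 → 2 := by
    intro h
    obtain ⟨j⟩ := uni_weak k L h (N := N) (ρ := ρ) hρ
    refine ⟨Fin N, inferInstance, (j : TInv α ρ →+* FR N k).comp
      (e : X.functionField →+* TInv α ρ), fun a => ?_⟩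
    change j (e (toFF k X p a)) = _
    rw [he a, AlgHom.commutes]
  tfae_have 2 → 1 := by
    rintro ⟨ι, hι, φ, hφ⟩
    let M := FractionRing (MvPolynomial ι k)
    let x : ι → M := fun i => algebraMap (MvPolynomial ι k) M (MvPolynomial.X i)
    have hx : AlgebraicIndependent k x :=
      (MvPolynomial.algebraicIndependent_X ι k).map'
        (f := IsScalarTower.toAlgHom k (MvPolynomial ι k) M)
        (IsFractionRing.injective (MvPolynomial ι k) M)
    have hxtop : IntermediateField.adjoin k (Set.range x) = ⊤ := by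
      rw [eq_top_iff]
      rintro z -
      obtain ⟨a, d, -, rfl⟩ := IsFractionRing.div_surjective (A := MvPolynomial ι k) (K := M) z
      have hmem : ∀ a : MvPolynomial ι k, algebraMap (MvPolynomial ι k) M a ∈
          IntermediateField.adjoin k (Set.range x) := by
        intro a
        induction a using MvPolynomial.induction_on with
        | C a =>
          have h2 : algebraMap (MvPolynomial ι k) M (C a) = algebraMap k M a := by
            rw [IsScalarTower.algebraMap_apply k (MvPolynomial ι k) M]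
            rfl
          rw [h2]
          exact IntermediateField.algebraMap_mem _ _
        | add p q hp hq =>
          rw [map_add]
          exact add_mem hp hq
        | mul_X p i hp =>
          rw [map_mul]
          exact mul_mem hp (IntermediateField.subset_adjoin k _ ⟨i, rfl⟩)
      exact IntermediateField.div_mem _ (hmem a) (hmem d)
    let ψ : TInv α ρ →ₐ[k] M :=
      { φ.comp (e.symm : TInv α ρ →+* X.functionField) with
        commutes' := fun a => by
          change φ (e.symm (algebraMap k (TInv α ρ) a)) = _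
          rw [← he a, RingEquiv.symm_apply_apply]
          exact hφ a }
    exact dense_of_uni k hNR X p (TInv α ρ) e he x hx hxtop ψ
  tfae_finish

/-- The Hilbert property from free solvability. -/
theorem hp_of_free (k : Type) [Field k] [CharZero k] (hk : IsHilbertian k) (L : Type) [Field L]
    [Algebra k L] [FiniteDimensional k L] [IsGalois k L] (G : Type) [Group G]
    (α : G →* (L ≃ₐ[k] L)) (hα : FreeT k L α) (N : ℕ) (ρ : G → GL (Fin N) L)
    (hρ : IsSemilinear α ρ) (X : Scheme.{0}) [IsIntegral X] (p : X ⟶ Spec (CommRingCat.of k))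
    [LocallyOfFiniteType p] (hX : IsQuotientModel k α ρ X p) :
    HilbertProperty k X p ∧
      ((∀ x : X, IsIntegrallyClosed (X.presheaf.stalk x)) → HilbertPropertyIso k X p) := by
  obtain ⟨e, he⟩ := exists_equiv hX
  have hNR : HilbNR k := Pool.Agent.W405.HP.hit k hk
  have h1 : HPF k (TInv α ρ) := hpf_free k hNR L hα hρ
  have h2 : HilbertProperty k X p := Pool.Agent.W253.HP.sch k X p (TInv α ρ) e he h1
  refine ⟨h2, fun hn q Y π hY hf hs hi => ?_⟩
  refine h2 q Y π hY hf hs fun i hsur => ?_
  have := hY i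
  exact hi i (Pool.Agent.W376.HP.nrm X (Y i) (π i) hn (hf i) (hs i) hsur)

/-- The rational points are dense if the Hilbert property holds. -/
theorem dense_of_hp {k : Type} [Field k] {X : Scheme.{0}} {p : X ⟶ Spec (CommRingCat.of k)}
    (h : HilbertProperty k X p) : DensePoints k X p := by
  refine (h 0 (fun i => i.elim0) (fun i => i.elim0) (fun i => i.elim0) (fun i => i.elim0)
    (fun i => i.elim0) (fun i => i.elim0)).mono ?_
  rintro x ⟨s, hs, hx, -⟩
  exact ⟨s, hs, hx⟩

end Pool.Agent.H865.TQ
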