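import Mathlib
import Pool.Agent.H865.TQ.Model
import Pool.Graph.R_pool_sql_team_seeded_5cf16337.K3h17.HQ.Spc

/-!
# The spectrum of the ring of invariants: from the Hilbert property to proper solutions
-/

set_option autoImplicit false

namespace Pool.Agent.H865.TQ

open AlgebraicGeometry CategoryTheory MvPolynomial W560.HP
open Pool.Agent.K3h17.HQ (ls ls_inj FR U U_alg U_U U_one U_congr Mf Mf_alg fixU exists_point dec)

section basics

variable {k L : Type} [Field k] [Field L] [Algebra k L] {G : Type} [Group G]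
  {α : G →* (L ≃ₐ[k] L)} {N : ℕ} {ρ : G → GL (Fin N) L}

/-- The action on the rational functions. -/
noncomputable def ag (α : G →* (L ≃ₐ[k] L)) (ρ : G → GL (Fin N) L) (g : G) : FR N L →+* FR N L :=
  (U (Units.isUnit ((ρ g)⁻¹))).comp (Mf N ((α g : L ≃ₐ[k] L) : L →+* L))

theorem ag_apply (g : G) (z : FR N L) : ag α ρ g z = U (Units.isUnit ((ρ g)⁻¹))
    (Mf N ((α g : L ≃ₐ[k] L) : L →+* L) z) := rfl

theorem ag_alg (g : G) (p : MvPolynomial (Fin N) L) :
    ag α ρ g (algebraMap _ (FR N L) p) = algebraMap _ (FR N L) (act α ρ g p) := by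
  rw [ag_apply, Mf_alg, U_alg, act_apply]

theorem mem_TInv' (z : FR N L) : z ∈ TInv α ρ ↔ ∀ g, ag α ρ g z = z := by
  rw [mem_TInv]
  refine forall_congr' fun g => ?_
  constructor
  · intro h
    rw [ag_apply, h, U_U (Units.isUnit (ρ g)) (Units.isUnit ((ρ g)⁻¹))
      ((Units.isUnit (ρ g)).mul (Units.isUnit ((ρ g)⁻¹))),
      U_congr _ (Units.mul_inv (ρ g)) isUnit_one, U_one]
  · intro h
    have h1 := congrArg (U (Units.isUnit (ρ g))) h
    rw [ag_apply, U_U (Units.isUnit ((ρ g)⁻¹)) (Units.isUnit (ρ g))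
      ((Units.isUnit ((ρ g)⁻¹)).mul (Units.isUnit (ρ g))),
      U_congr _ (Units.inv_mul (ρ g)) isUnit_one, U_one] at h1
    exact h1

theorem act_inj (hρ : Coc α ρ) (g : G) : Function.Injective (act α ρ g) := by
  intro p q h
  have h1 := congrArg (act α ρ g⁻¹) h
  rwa [← act_mul hρ, ← act_mul hρ, inv_mul_cancel, act_one hρ, act_one hρ] at h1

/-- The field of invariants is the field of fractions of the ring of invariants. -/
theorem range_B (hρ : Coc α ρ) [Finite G] (z : FR N L) :
    z ∈ TInv α ρ ↔ ∃ a b : BT α ρ, b ≠ 0 ∧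
      z * algebraMap _ _ (b : MvPolynomial (Fin N) L) =
        algebraMap _ _ (a : MvPolynomial (Fin N) L) := by
  classical
  have := Fintype.ofFinite G
  have hinj : Function.Injective (algebraMap (MvPolynomial (Fin N) L) (FR N L)) :=
    IsFractionRing.injective (MvPolynomial (Fin N) L) (FR N L)
  rw [mem_TInv']
  constructor
  · intro hz
    obtain ⟨p, q, hq, hpq⟩ := IsFractionRing.div_surjective (A := MvPolynomial (Fin N) L) z
    have hq0 : q ≠ 0 := nonZeroDivisors.ne_zero hq
    have hq1 : algebraMap (MvPolynomial (Fin N) L) (FR N L) q ≠ 0 := by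
      rw [Ne, map_eq_zero_iff _ hinj]
      exact hq0
    have hzq : z * algebraMap _ _ q = algebraMap _ _ p := by
      rw [← hpq]
      exact div_mul_cancel₀ _ hq1
    let Nq : MvPolynomial (Fin N) L := ∏ h : G, act α ρ h q
    let M : MvPolynomial (Fin N) L := ∏ h ∈ Finset.univ.erase (1 : G), act α ρ h q
    have hNM : Nq = q * M := by
      have h1 := Finset.mul_prod_erase Finset.univ (fun h : G => act α ρ h q)
        (Finset.mem_univ 1)
      rw [act_one hρ] at h1
      exact h1.symm
    have hN : ∀ g : G, act α ρ g Nq = Nq := by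
      intro g
      change act α ρ g (∏ h : G, act α ρ h q) = ∏ h : G, act α ρ h q
      rw [map_prod]
      simp only [← act_mul hρ]
      exact Fintype.prod_equiv (Equiv.mulLeft g) _ _ fun h => rfl
    have hN0 : Nq ≠ 0 := Finset.prod_ne_zero_iff.2 fun h _ h0 =>
      hq0 (act_inj hρ h (h0.trans (map_zero _).symm))
    have hzN : z * algebraMap _ _ Nq = algebraMap _ _ (p * M) := by
      rw [hNM, map_mul, ← mul_assoc, hzq, map_mul]
    have hp : ∀ g : G, act α ρ g (p * M) = p * M := by
      intro g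
      apply hinj
      rw [← ag_alg, ← hzN, map_mul, hz g, ag_alg, hN]
    exact ⟨⟨p * M, hp⟩, ⟨Nq, hN⟩, fun h0 => hN0 (congrArg Subtype.val h0), hzN⟩
  · rintro ⟨a, b, hb, hab⟩ g
    have hb0 : algebraMap (MvPolynomial (Fin N) L) (FR N L) (b : MvPolynomial (Fin N) L) ≠ 0 := by
      rw [Ne, map_eq_zero_iff _ hinj]
      exact fun h0 => hb (Subtype.ext h0)
    have h2 := congrArg (ag α ρ g) hab
    rw [map_mul, ag_alg, ag_alg, a.2 g, b.2 g, ← hab] at h2
    exact mul_right_cancel₀ hb0 h2

/-- The spectrum of the ring of invariants is a model. -/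
theorem model_B (hρ : Coc α ρ) [Finite G] :
    IsQuotientModel k α ρ (Spec (CommRingCat.of (BT α ρ)))
      (Spec.map (CommRingCat.ofHom (algebraMap k (BT α ρ)))) := by
  classical
  let B := BT α ρ
  let X : Scheme.{0} := Spec (CommRingCat.of B)
  let p : X ⟶ Spec (CommRingCat.of k) := Spec.map (CommRingCat.ofHom (algebraMap k B))
  have hinj : Function.Injective (algebraMap (MvPolynomial (Fin N) L) (FR N L)) :=
    IsFractionRing.injective (MvPolynomial (Fin N) L) (FR N L)
  have hne : Nonempty ((⊤ : X.Opens)) := ⟨⟨genericPoint X, trivial⟩⟩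
  have hfr := functionField_isFractionRing_of_isAffineOpen X ⊤ (isAffineOpen_top X)
  let g : Γ(X, ⊤) →+* FR N L := ((algebraMap (MvPolynomial (Fin N) L) (FR N L)).comp
    B.val.toRingHom).comp (Scheme.ΓSpecIso (CommRingCat.of B)).hom.hom
  have hbij := ConcreteCategory.bijective_of_isIso (Scheme.ΓSpecIso (CommRingCat.of B)).hom
  have hgi : Function.Injective g := (hinj.comp Subtype.val_injective).comp hbij.1
  let e : X.functionField →+* FR N L := IsFractionRing.lift (A := Γ(X, ⊤)) hgi
  have he : ∀ x : Γ(X, ⊤), e (algebraMap Γ(X, ⊤) X.functionField x) = g x := fun x =>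
    IsFractionRing.lift_algebraMap hgi x
  refine ⟨e, fun a => ?_, ?_⟩
  · have h1 : toFF k X p a = algebraMap Γ(X, ⊤) X.functionField
        (p.appTop.hom ((Scheme.ΓSpecIso (CommRingCat.of k)).inv.hom a)) := rfl
    have h2 := Scheme.ΓSpecIso_inv_naturality (CommRingCat.ofHom (algebraMap k B))
    have h3 : p.appTop.hom ((Scheme.ΓSpecIso (CommRingCat.of k)).inv.hom a) =
        (Scheme.ΓSpecIso (CommRingCat.of B)).inv.hom (algebraMap k B a) :=
      (congrArg (fun f => f.hom a) h2).symm
    change e (toFF k X p a) = _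
    rw [h1, he, h3]
    have h4 : (Scheme.ΓSpecIso (CommRingCat.of B)).hom.hom
        ((Scheme.ΓSpecIso (CommRingCat.of B)).inv.hom (algebraMap k B a)) = algebraMap k B a :=
      congrArg (fun f => f.hom (algebraMap k B a))
        (Scheme.ΓSpecIso (CommRingCat.of B)).inv_hom_id
    change algebraMap (MvPolynomial (Fin N) L) (FR N L) ((Scheme.ΓSpecIso
      (CommRingCat.of B)).hom.hom ((Scheme.ΓSpecIso (CommRingCat.of B)).inv.hom
        (algebraMap k B a)) : B) = _
    rw [h4]
    congr 1
  · ext z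
    rw [Set.mem_ofPred_eq, isInv_iff, range_B hρ]
    constructor
    · rintro ⟨x, rfl⟩
      obtain ⟨a, b, hb, rfl⟩ := IsFractionRing.div_surjective (A := Γ(X, ⊤)) x
      have hb0 : b ≠ 0 := nonZeroDivisors.ne_zero hb
      refine ⟨(Scheme.ΓSpecIso (CommRingCat.of B)).hom.hom a,
        (Scheme.ΓSpecIso (CommRingCat.of B)).hom.hom b, ?_, ?_⟩
      · intro h0
        exact hb0 (hbij.1 (h0.trans (map_zero _).symm))
      · change e _ * g b = g a
        rw [map_div₀, he, he]
        refine div_mul_cancel₀ _ ?_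
        rw [Ne, map_eq_zero_iff _ hgi]
        exact hb0
    · rintro ⟨a, b, hb, hab⟩
      obtain ⟨a', ha'⟩ := hbij.2 a
      obtain ⟨b', hb'⟩ := hbij.2 b
      have hga : g a' = algebraMap _ _ (a : MvPolynomial (Fin N) L) :=
        congrArg (fun x : B => algebraMap (MvPolynomial (Fin N) L) (FR N L) x) ha'
      have hgb : g b' = algebraMap _ _ (b : MvPolynomial (Fin N) L) :=
        congrArg (fun x : B => algebraMap (MvPolynomial (Fin N) L) (FR N L) x) hb'
      have hb0 : algebraMap (MvPolynomial (Fin N) L) (FR N L) (b : MvPolynomial (Fin N) L) ≠ 0 := by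
        rw [Ne, map_eq_zero_iff _ hinj]
        intro h0
        exact hb (Subtype.ext h0)
      refine ⟨algebraMap Γ(X, ⊤) X.functionField a' / algebraMap Γ(X, ⊤) X.functionField b', ?_⟩
      rw [map_div₀, he, he, hga, hgb, div_eq_iff hb0]
      exact hab.symm

/-- A non-invariant element for each proper subgroup. -/
theorem exists_noninv (hρ : Coc α ρ) [Finite G] (θ : MvPolynomial (Fin N) L)
    (hθ : ∀ g, act α ρ g θ = θ → g = 1) (S : Subgroup G) (hS : S ≠ ⊤) :
    ∃ c : MvPolynomial (Fin N) L, (∀ u ∈ S, act α ρ u c = c) ∧ ∃ g : G, act α ρ g c ≠ c := by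
  classical
  by_contra hcon
  push Not at hcon
  apply hS
  let _ := mact hρ
  have := Fintype.ofFinite S
  have hF : ∀ g : G, g • MulSemiringAction.charpoly S θ = MulSemiringAction.charpoly S θ := by
    intro g
    ext1 n
    rw [Polynomial.coeff_smul]
    refine hcon _ (fun u hu => ?_) g
    exact MulSemiringAction.smul_coeff_charpoly θ n (⟨u, hu⟩ : S)
  rw [eq_top_iff]
  intro g _
  have h1 : (MulSemiringAction.charpoly S θ).eval (g • θ) = 0 := by
    rw [← hF g, Polynomial.smul_eval_smul, MulSemiringAction.eval_charpoly, smul_zero]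
  rw [MulSemiringAction.charpoly_eq, Polynomial.eval_prod, Finset.prod_eq_zero_iff] at h1
  obtain ⟨u, -, hu⟩ := h1
  rw [Polynomial.eval_sub, Polynomial.eval_X, Polynomial.eval_C, sub_eq_zero] at hu
  have h2 : ((u : G)⁻¹ * g) • θ = θ := by
    rw [mul_smul, hu]
    exact inv_smul_smul (u : G) θ
  have h3 := hθ _ h2
  rw [inv_mul_eq_one] at h3
  rw [← h3]
  exact u.2

end basics

/-- The Hilbert property of the spectrum of the ring of invariants gives a proper solution. -/
theorem proper_of_hp {k L : Type} [Field k] [CharZero k] [Field L] [Algebra k L]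
    [FiniteDimensional k L] {G : Type} [Group G] [Finite G] {α : G →* (L ≃ₐ[k] L)} {N : ℕ}
    {ρ : G → GL (Fin N) L} (hρ : Coc α ρ) (hf : IsFaithful α ρ)
    (hHP : HilbertProperty k (Spec (CommRingCat.of (BT α ρ)))
      (Spec.map (CommRingCat.ofHom (algebraMap k (BT α ρ))))) : ProperlySolvable k L G α := by
  classical
  let B := BT α ρ
  let R := MvPolynomial (Fin N) L
  let _ : MulSemiringAction G R := mact hρ
  have i1 : SMulCommClass G B R := smulComm hρ
  have i2 : Algebra.IsInvariant B R G := isInvt hρ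
  obtain ⟨i3, i4⟩ := finT (α := α) (ρ := ρ) hρ
  have i5 : IsNoetherianRing B := Algebra.FiniteType.isNoetherianRing k B
  have i6 : FaithfulSMul B R := (faithfulSMul_iff_algebraMap_injective _ _).2 alg_inj
  obtain ⟨s, θ₀, hs0, hs⟩ := exists_s (k := k) (α := α) (ρ := ρ) hρ hf
  obtain ⟨θ₁, hθ₁⟩ := exists_theta (k := k) (α := α) (ρ := ρ) hf
  obtain ⟨φ, hφs, hφ⟩ := exists_point (k := k) (B := B) (R := R) (Γ := G) hHP s hs0
    fun S hS => exists_noninv hρ θ₁ hθ₁ S hS
  obtain ⟨κ, j1, j2, q, θ, hqs, j3, j4, hqb, hθs, hθ⟩ := dec (B := B) (R := R) G φ hφ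
  have hsm : ∀ (g : G) (x : R), g • x = act α ρ g x := fun g x => rfl
  let cL : L →+* κ := q.toRingHom.comp MvPolynomial.C
  have hθi : Function.Injective θ := by
    rw [injective_iff_map_eq_one]
    intro g hg
    by_contra h1
    have h2 := hθ g θ₀
    rw [hg] at h2
    have h3 : q θ₀ = q (act α ρ g θ₀) := h2
    obtain ⟨t, ht⟩ := hs g h1
    have h4 := hqb s
    have h5 : algebraMap B R s = (s : MvPolynomial (Fin N) L) := rfl
    rw [h5, ht, map_mul, map_sub, ← h3, sub_self, zero_mul] at h4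
    exact hφs ((map_eq_zero_iff _ (algebraMap k κ).injective).1 h4.symm)
  let γ : G ≃* (κ ≃ₐ[k] κ) := MulEquiv.ofBijective θ ⟨hθi, hθs⟩
  let aL : Algebra L κ := cL.toAlgebra
  have hT : IsScalarTower k L κ := IsScalarTower.of_algebraMap_eq fun a => by
    change algebraMap k κ a = q (MvPolynomial.C (algebraMap k L a))
    rw [← q.commutes]
    congr 1
  refine ⟨κ, j1, j2, aL, hT, j3, j4, γ.symm, fun σ x => ?_⟩
  obtain ⟨g, rfl⟩ := γ.surjective σ
  rw [MulEquiv.symm_apply_apply]
  change θ g (q (MvPolynomial.C x)) = q (MvPolynomial.C (α g x))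
  rw [hθ, hsm, act_C]

end Pool.Agent.H865.TQ
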