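import Mathlib
import Pool.Agent.H865.TQ.Spc
import Pool.Graph.R_seed8.TH377.IG.Bc2

/-!
# Pull-backs of embedding problems and of semilinear representations
-/

set_option autoImplicit false

namespace Pool.Agent.H865.TQ

open AlgebraicGeometry CategoryTheory MvPolynomial W560.HP
open Pool.Agent.K3h17.HQ (ls ls_inj FR U U_alg U_U U_one U_congr Mf Mf_alg Mf_U isUnit_map descent)
open Pool.Agent.TH377.IG (FP prFP mem_FP)

/-- Restriction of automorphisms. -/
noncomputable abbrev rs (k L E : Type) [Field k] [Field L] [Field E] [Algebra k L] [Algebra k E]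
    [Algebra L E] [IsScalarTower k L E] [Normal k L] : (E ≃ₐ[k] E) →* (L ≃ₐ[k] L) :=
  AlgEquiv.restrictNormalHom (F := k) (K₁ := E) L

section rs

variable {k L E : Type} [Field k] [Field L] [Field E] [Algebra k L] [Algebra k E]
    [Algebra L E] [IsScalarTower k L E] [Normal k L]

theorem rs_comm (δ : E ≃ₐ[k] E) (x : L) :
    δ (algebraMap L E x) = algebraMap L E (rs k L E δ x) :=
  (AlgEquiv.restrictNormal_commutes δ L x).symm

theorem rs_eq {δ : E ≃ₐ[k] E} {τ : L ≃ₐ[k] L}
    (h : ∀ x : L, δ (algebraMap L E x) = algebraMap L E (τ x)) : rs k L E δ = τ := by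
  apply AlgEquiv.ext
  intro x
  apply (algebraMap L E).injective
  rw [← rs_comm, h]

end rs

section free

variable {k L : Type} [Field k] [Field L] [Algebra k L] [Normal k L] {G : Type} [Group G]
  {α : G →* (L ≃ₐ[k] L)}

/-- Proper solutions of the pull-backs give free solvability. -/
theorem free_at (h : ∀ (E : Type) [Field E] [Algebra k E] [Algebra L E] [IsScalarTower k L E]
    [FiniteDimensional k E] [IsGalois k E], ∃ (N : Type) (_ : Field N) (_ : Algebra k N)
      (_ : Algebra E N) (_ : IsScalarTower k E N) (_ : Algebra L N) (_ : IsScalarTower L E N)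
      (_ : IsScalarTower k L N), ProperlySolvable k N (FP α (rs k L N)) (prFP α (rs k L N))) :
    FreeT k L α := by
  intro E _ _ _ _ _ _
  obtain ⟨N, n1, n2, n3, n4, n5, n6, n7, F, i1, i2, i3, i4, i5, i6, γ, hγ⟩ := h E
  let _ : Algebra E F := ((algebraMap N F).comp (algebraMap E N)).toAlgebra
  have hT : IsScalarTower k E F := IsScalarTower.of_algebraMap_eq fun x => by
    change _ = algebraMap N F (algebraMap E N (algebraMap k E x))
    rw [← IsScalarTower.algebraMap_apply k E N, ← IsScalarTower.algebraMap_apply k N F]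
  have hγ' : ∀ (σ : F ≃ₐ[k] F) (x : N), σ (algebraMap N F x) =
      algebraMap N F ((γ σ : G × (N ≃ₐ[k] N)).2 x) := hγ
  refine ⟨F, i1, i2, inferInstance, hT, i5, i6,
    (MonoidHom.fst G (N ≃ₐ[k] N)).comp ((FP α (rs k L N)).subtype.comp γ.toMonoidHom),
    fun σ x => ?_, fun g hg => ?_⟩
  · change σ (algebraMap N F (algebraMap E N (algebraMap L E x))) =
      algebraMap N F (algebraMap E N (algebraMap L E _))
    rw [← IsScalarTower.algebraMap_apply L E N, ← IsScalarTower.algebraMap_apply L E N, hγ',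
      rs_comm]
    have h1 : α (γ σ : G × (N ≃ₐ[k] N)).1 = rs k L N (γ σ : G × (N ≃ₐ[k] N)).2 := (γ σ).2
    rw [← h1]
    rfl
  · have hmem : ((g, 1) : G × (N ≃ₐ[k] N)) ∈ FP α (rs k L N) := by
      rw [mem_FP, hg, map_one]
    refine ⟨γ.symm ⟨(g, 1), hmem⟩, fun x => ?_, ?_⟩
    · change (γ.symm ⟨(g, 1), hmem⟩) (algebraMap N F (algebraMap E N x)) =
        algebraMap N F (algebraMap E N x)
      rw [hγ', MulEquiv.apply_symm_apply]
      rfl
    · change (γ (γ.symm ⟨(g, 1), hmem⟩) : G × (N ≃ₐ[k] N)).1 = g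
      rw [MulEquiv.apply_symm_apply]

end free

section pull

variable {k L E : Type} [Field k] [Field L] [Field E] [Algebra k L] [Algebra k E]
  [Algebra L E] [IsScalarTower k L E] [Normal k L] {G : Type} [Group G]
  {α : G →* (L ≃ₐ[k] L)} {N : ℕ} {ρ : G → GL (Fin N) L}

/-- The pull-back of the representation. -/
noncomputable def rhoE (E : Type) [Field E] [Algebra k E] [Algebra L E] [IsScalarTower k L E]
    (α : G →* (L ≃ₐ[k] L)) (ρ : G → GL (Fin N) L) (x : FP α (rs k L E)) : GL (Fin N) E :=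
  Matrix.GeneralLinearGroup.map (algebraMap L E) (ρ (x : G × (E ≃ₐ[k] E)).1)

theorem rhoE_val (x : FP α (rs k L E)) : (rhoE E α ρ x : Matrix (Fin N) (Fin N) E) =
    (ρ (x : G × (E ≃ₐ[k] E)).1 : Matrix (Fin N) (Fin N) L).map (algebraMap L E) := rfl

theorem coc_E (hρ : Coc α ρ) : Coc (prFP α (rs k L E)) (rhoE E α ρ) := by
  intro x y
  rw [rhoE_val, rhoE_val, rhoE_val]
  have h1 : ((x * y : FP α (rs k L E)) : G × (E ≃ₐ[k] E)).1 =
    (x : G × (E ≃ₐ[k] E)).1 * (y : G × (E ≃ₐ[k] E)).1 := rfl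
  rw [h1, hρ, Matrix.map_mul]
  congr 1
  ext i j
  have h2 : α (x : G × (E ≃ₐ[k] E)).1 = rs k L E (x : G × (E ≃ₐ[k] E)).2 := x.2
  change algebraMap L E (α (x : G × (E ≃ₐ[k] E)).1 _) = (x : G × (E ≃ₐ[k] E)).2 _
  rw [h2, ← rs_comm]
  rfl

theorem faithful_E (hf : IsFaithful α ρ) : IsFaithful (prFP α (rs k L E)) (rhoE E α ρ) := by
  intro x hx hx'
  have h2 : (x : G × (E ≃ₐ[k] E)).2 = 1 := hx
  have h1 : α (x : G × (E ≃ₐ[k] E)).1 = 1 := by
    have h3 : α (x : G × (E ≃ₐ[k] E)).1 = rs k L E (x : G × (E ≃ₐ[k] E)).2 := x.2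
    rw [h3, h2, map_one]
  have h4 : ρ (x : G × (E ≃ₐ[k] E)).1 = 1 := by
    apply Units.ext
    rw [Units.val_one]
    ext i j
    apply (algebraMap L E).injective
    have h5 := congrArg (fun M : GL (Fin N) E => (M : Matrix (Fin N) (Fin N) E) i j) hx'
    have h6 : (rhoE E α ρ x : Matrix (Fin N) (Fin N) E) i j =
      algebraMap L E ((ρ (x : G × (E ≃ₐ[k] E)).1 : Matrix (Fin N) (Fin N) L) i j) := rfl
    have h7 : ((1 : GL (Fin N) E) : Matrix (Fin N) (Fin N) E) i j =
      algebraMap L E ((1 : Matrix (Fin N) (Fin N) L) i j) := by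
      rw [Units.val_one, Matrix.one_apply, Matrix.one_apply]
      split_ifs
      · rw [map_one]
      · rw [map_zero]
    exact h6.symm.trans (h5.trans h7)
  have h8 := hf _ h1 h4
  exact Subtype.ext (Prod.ext h8 h2)

/-- The inclusion of the rational functions. -/
noncomputable abbrev icE (N : ℕ) (L E : Type) [Field L] [Field E] [Algebra L E] :
    FR N L →+* FR N E := Mf N (algebraMap L E)

theorem icE_Mf (δ : E ≃ₐ[k] E) (τ : L ≃ₐ[k] L)
    (h : ∀ x : L, δ (algebraMap L E x) = algebraMap L E (τ x)) (z : FR N L) :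
    Mf N (δ : E →+* E) (icE N L E z) = icE N L E (Mf N (τ : L →+* L) z) := by
  rw [Pool.Agent.K3h17.HQ.Mf_Mf, Pool.Agent.K3h17.HQ.Mf_Mf]
  refine Pool.Agent.K3h17.HQ.Mf_congr ?_ z
  exact RingHom.ext fun x => h x

theorem icE_U (x : FP α (rs k L E)) (z : FR N L) :
    icE N L E (U (Units.isUnit (ρ (x : G × (E ≃ₐ[k] E)).1)) z) =
      U (Units.isUnit (rhoE E α ρ x)) (icE N L E z) := by
  rw [Mf_U (algebraMap L E) (Units.isUnit (ρ (x : G × (E ≃ₐ[k] E)).1)) (isUnit_map _ (Units.isUnit _))]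
  exact U_congr _ (rhoE_val x).symm _ _

theorem mem_E (z : FR N L) (hz : z ∈ TInv α ρ) :
    icE N L E z ∈ TInv (prFP α (rs k L E)) (rhoE E α ρ) := by
  intro x
  have h2 : α (x : G × (E ≃ₐ[k] E)).1 = rs k L E (x : G × (E ≃ₐ[k] E)).2 := x.2
  have h3 := icE_Mf (N := N) (x : G × (E ≃ₐ[k] E)).2 (α (x : G × (E ≃ₐ[k] E)).1) (fun y => by
    rw [h2, rs_comm]) z
  have h4 : (prFP α (rs k L E) x : E ≃ₐ[k] E) = (x : G × (E ≃ₐ[k] E)).2 := rfl
  rw [h4, h3, hz, icE_U]

theorem exists_desc [FiniteDimensional k E] [IsGalois k E] (hρ : Coc α ρ) (z' : FR N E)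
    (hz' : z' ∈ TInv (prFP α (rs k L E)) (rhoE E α ρ)) :
    ∃ z ∈ TInv α ρ, icE N L E z = z' := by
  have hgal : IsGalois L E := IsGalois.tower_top_of_isGalois k L E
  have hfd : FiniteDimensional L E := Module.Finite.of_restrictScalars_finite k L E
  obtain ⟨z, hz⟩ := descent (k := L) (Fb := E) (fun a ha => by
      have h1 : a ∈ (⊥ : IntermediateField L E) := by
        rw [IsGalois.mem_bot_iff_fixed]
        exact ha
      exact IntermediateField.mem_bot.1 h1) z' fun σ => by
    have h1 : rs k L E (σ.restrictScalars k) = 1 := rs_eq fun x => σ.commutes x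
    have hmem : ((1, σ.restrictScalars k) : G × (E ≃ₐ[k] E)) ∈ FP α (rs k L E) := by
      rw [mem_FP, h1, map_one]
    have h2 := hz' ⟨(1, σ.restrictScalars k), hmem⟩
    have h3 : (rhoE E α ρ ⟨(1, σ.restrictScalars k), hmem⟩ : Matrix (Fin N) (Fin N) E) = 1 := by
      rw [rhoE_val]
      change (ρ 1 : Matrix (Fin N) (Fin N) L).map (algebraMap L E) = 1
      rw [hρ.one, Matrix.map_one _ (map_zero _) (map_one _)]
    rw [U_congr _ h3 isUnit_one, U_one] at h2
    exact h2
  refine ⟨z, fun g => ?_, hz⟩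
  obtain ⟨δ, hδ⟩ := AlgEquiv.restrictNormalHom_surjective (F := k) (K₁ := L) E (α g)
  have hmem : ((g, δ) : G × (E ≃ₐ[k] E)) ∈ FP α (rs k L E) := hδ.symm
  have h2 := hz' ⟨(g, δ), hmem⟩
  have hzE : icE N L E z = z' := hz
  rw [← hzE] at h2
  apply (icE N L E).injective
  have h3 := icE_Mf (N := N) δ (α g) (fun y => by rw [← hδ]; exact rs_comm δ y) z
  rw [← h3]
  exact h2.trans (icE_U (α := α) (ρ := ρ) ⟨(g, δ), hmem⟩ z).symm

/-- The models of the pull-back are models of the given quotient. -/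
theorem model_pull [FiniteDimensional k E] [IsGalois k E] (hρ : Coc α ρ) {X : Scheme.{0}}
    [IsIntegral X] {p : X ⟶ Spec (CommRingCat.of k)}
    (h : IsQuotientModel k (prFP α (rs k L E)) (rhoE E α ρ) X p) : IsQuotientModel k α ρ X p := by
  obtain ⟨e, he⟩ := exists_equiv h
  let f : TInv α ρ →+* TInv (prFP α (rs k L E)) (rhoE E α ρ) :=
    ((icE N L E).comp (algebraMap (TInv α ρ) (FR N L))).codRestrict _ fun z => mem_E _ z.2
  have hf : Function.Bijective f := by
    refine ⟨f.injective, fun z' => ?_⟩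
    obtain ⟨z, hz, hzz⟩ := exists_desc hρ (z' : FR N E) z'.2
    exact ⟨⟨z, hz⟩, Subtype.ext hzz⟩
  let ε : TInv α ρ ≃+* TInv (prFP α (rs k L E)) (rhoE E α ρ) := RingEquiv.ofBijective f hf
  have hε : ∀ a : k, ε (algebraMap k (TInv α ρ) a) = algebraMap k _ a := by
    intro a
    apply Subtype.ext
    change icE N L E (algebraMap k (FR N L) a) = algebraMap k (FR N E) a
    rw [IsScalarTower.algebraMap_apply k (MvPolynomial (Fin N) L) (FR N L),
      IsScalarTower.algebraMap_apply k (MvPolynomial (Fin N) E) (FR N E), Mf_alg]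
    congr 1
    change MvPolynomial.map (algebraMap L E) (C (algebraMap k L a)) = C (algebraMap k E a)
    rw [MvPolynomial.map_C, ← IsScalarTower.algebraMap_apply k L E]
  refine model_of_equiv (e.trans ε.symm) fun a => ?_
  change ε.symm (e (toFF k X p a)) = _
  rw [he, ← hε, RingEquiv.symm_apply_apply]

end pull

/-- The Hilbert property of all models gives free solvability. -/
theorem free_of_hp {k L : Type} [Field k] [CharZero k] [Field L] [Algebra k L]
    [FiniteDimensional k L] [IsGalois k L] {G : Type} [Group G] [Finite G]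
    {α : G →* (L ≃ₐ[k] L)} {N : ℕ} {ρ : G → GL (Fin N) L} (hρ : Coc α ρ) (hf : IsFaithful α ρ)
    (hHP : ∀ (X : Scheme.{0}) [IsIntegral X] (p : X ⟶ Spec (CommRingCat.of k))
      [LocallyOfFiniteType p], IsQuotientModel k α ρ X p → HilbertProperty k X p) :
    FreeT k L α := by
  refine free_at fun E _ _ _ _ _ _ => ?_
  refine ⟨E, inferInstance, inferInstance, Algebra.id E, inferInstance, inferInstance,
    inferInstance, inferInstance, ?_⟩
  have h1 := coc_E (E := E) hρ
  have h2 := faithful_E (E := E) hf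
  obtain ⟨h3, h4⟩ := finT (α := prFP α (rs k L E)) (ρ := rhoE E α ρ) h1
  have hlft : LocallyOfFiniteType (Spec.map (CommRingCat.ofHom (algebraMap k
      (BT (prFP α (rs k L E)) (rhoE E α ρ))))) := by
    rw [HasRingHomProperty.Spec_iff (P := @LocallyOfFiniteType)]
    exact RingHom.finiteType_algebraMap.2 h4
  exact proper_of_hp h1 h2 (hHP _ _ (model_pull hρ (model_B h1)))

end Pool.Agent.H865.TQ
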