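import Mathlib
import Pool.Agent.H865.TQ.Pull
import Pool.Graph.R_pool_sql_team_seeded_5cf16337.K3h17.HQ.Pow

/-!
# Free solvability and fibre powers
-/

set_option autoImplicit false

namespace Pool.Agent.H865.TQ

open Pool.Agent.TH377.IG (FP prFP mem_FP exists_comp')
open Pool.Agent.K3h17.HQ (exists_full)
open Pool.Agent.H391R2.T4 (exists_equiv_of_ker)

/-- A surjective homomorphism gives a proper solution. -/
theorem proper_of_surj {k L F A : Type} [Field k] [Field L] [Algebra k L] [Group A]
    (a : A →* (L ≃ₐ[k] L)) [Field F] [Algebra k F] [Algebra L F] [IsScalarTower k L F]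
    [FiniteDimensional k F] [IsGalois k F] (f : (F ≃ₐ[k] F) →* A) (hf : Function.Surjective f)
    (h : ∀ (σ : F ≃ₐ[k] F) (x : L), σ (algebraMap L F x) = algebraMap L F (a (f σ) x)) :
    ProperlySolvable k L A a := by
  let M := IntermediateField.fixedField f.ker
  have hgal : IsGalois k M := IsGalois.of_fixedField_normal_subgroup f.ker
  have hLM : ∀ x : L, algebraMap L F x ∈ M := by
    rintro x ⟨τ, hτ⟩
    have h1 : f τ = 1 := hτ
    change τ (algebraMap L F x) = algebraMap L F x
    rw [h, h1, map_one]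
    rfl
  have hker : (AlgEquiv.restrictNormalHom (F := k) (K₁ := F) M).ker = f.ker := by
    ext σ
    rw [MonoidHom.mem_ker]
    constructor
    · intro h
      have h1 : σ ∈ M.fixingSubgroup := by
        rw [IntermediateField.mem_fixingSubgroup_iff]
        intro x hx
        have h2 := AlgEquiv.restrictNormal_commutes σ M (⟨x, hx⟩ : M)
        have h3 : σ.restrictNormal M = 1 := h
        rw [h3] at h2
        exact h2.symm
      rw [IntermediateField.fixingSubgroup_fixedField] at h1
      exact h1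
    · intro h
      apply AlgEquiv.ext
      intro x
      apply Subtype.ext
      have h1 := AlgEquiv.restrictNormal_commutes σ M x
      exact h1.trans (x.2 ⟨σ, h⟩)
  obtain ⟨γ, hγ⟩ := exists_equiv_of_ker
    (AlgEquiv.restrictNormalHom (F := k) (K₁ := F) M) f
    (AlgEquiv.restrictNormalHom_surjective F) hf hker
  let _ : Algebra L M := ((algebraMap L F).codRestrict M hLM).toAlgebra
  have hT : IsScalarTower k L M := IsScalarTower.of_algebraMap_eq fun x => by
    apply Subtype.ext
    exact IsScalarTower.algebraMap_apply k L F x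
  refine ⟨M, inferInstance, inferInstance, inferInstance, hT, inferInstance, hgal, γ,
    fun σ x => ?_⟩
  obtain ⟨τ, rfl⟩ := AlgEquiv.restrictNormalHom_surjective (F := k) (K₁ := M) F σ
  rw [hγ]
  apply Subtype.ext
  have h1 : ((AlgEquiv.restrictNormalHom M τ (algebraMap L M x) : M) : F) =
      τ (algebraMap L F x) := AlgEquiv.restrictNormal_commutes τ M (algebraMap L M x)
  rw [h1, h]
  rfl

variable {k L : Type} [Field k] [Field L] [Algebra k L] {G : Type} [Group G]
  {α : G →* (L ≃ₐ[k] L)}

/-- Free solvability gives proper solutions of the fibre powers. -/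
theorem pow_of_free [FiniteDimensional k L] [IsGalois k L] (h : FreeT k L α) (m : ℕ) :
    ProperlySolvable k L (FibrePower k L G α m) (fibreProj k L G α m) := by
  induction m with
  | zero =>
    let f : (L ≃ₐ[k] L) →* FibrePower k L G α 0 :=
      { toFun := fun σ => ⟨(fun i => i.elim0, σ), fun i => i.elim0⟩
        map_one' := Subtype.ext (Prod.ext (funext fun i => i.elim0) rfl)
        map_mul' := fun σ τ => Subtype.ext (Prod.ext (funext fun i => i.elim0) rfl) }
    refine proper_of_surj _ f ?_ fun σ x => rfl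
    rintro ⟨⟨x, σ⟩, hx⟩
    exact ⟨σ, Subtype.ext (Prod.ext (funext fun i => i.elim0) rfl)⟩
  | succ m ih =>
    obtain ⟨E, i1, i2, i3, i4, i5, i6, γ, hγ⟩ := ih
    obtain ⟨F, j1, j2, j3, j4, j5, j6, η, hη1, hη2⟩ := h E
    let _ : Algebra L F := ((algebraMap E F).comp (algebraMap L E)).toAlgebra
    have hT1 : IsScalarTower L E F := IsScalarTower.of_algebraMap_eq fun x => rfl
    have hT2 : IsScalarTower k L F := IsScalarTower.of_algebraMap_eq fun x => by
      rw [IsScalarTower.algebraMap_apply k E F, IsScalarTower.algebraMap_apply k L E,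
        ← IsScalarTower.algebraMap_apply L E F]
    have hres : ∀ (σ : F ≃ₐ[k] F) (x : L), α (η σ) x =
        (γ (rs k E F σ) : (Fin m → G) × (L ≃ₐ[k] L)).2 x := by
      intro σ x
      apply (algebraMap E F).injective.comp (algebraMap L E).injective
      change algebraMap E F (algebraMap L E _) = algebraMap E F (algebraMap L E _)
      rw [← hη1, rs_comm, hγ]
      rfl
    let f : (F ≃ₐ[k] F) →* FibrePower k L G α (m + 1) :=
      { toFun := fun σ => ⟨(Fin.cons (η σ) (γ (rs k E F σ) : (Fin m → G) × (L ≃ₐ[k] L)).1,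
          (γ (rs k E F σ) : (Fin m → G) × (L ≃ₐ[k] L)).2), fun i => by
            refine Fin.cases ?_ (fun i => ?_) i
            · exact AlgEquiv.ext fun x => hres σ x
            · exact (γ (rs k E F σ)).2 i⟩
        map_one' := by
          apply Subtype.ext
          refine Prod.ext (funext fun i => ?_) ?_
          · refine Fin.cases ?_ (fun i => ?_) i
            · change η 1 = 1
              rw [map_one]
            · change (γ (rs k E F 1) : (Fin m → G) × (L ≃ₐ[k] L)).1 i = 1
              rw [map_one, map_one]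
              rfl
          · change (γ (rs k E F 1) : (Fin m → G) × (L ≃ₐ[k] L)).2 = 1
            rw [map_one, map_one]
            rfl
        map_mul' := fun σ τ => by
          apply Subtype.ext
          refine Prod.ext (funext fun i => ?_) ?_
          · refine Fin.cases ?_ (fun i => ?_) i
            · change η (σ * τ) = η σ * η τ
              rw [map_mul]
            · change (γ (rs k E F (σ * τ)) : (Fin m → G) × (L ≃ₐ[k] L)).1 i =
                (γ (rs k E F σ) : (Fin m → G) × (L ≃ₐ[k] L)).1 i *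
                  (γ (rs k E F τ) : (Fin m → G) × (L ≃ₐ[k] L)).1 i
              rw [map_mul, map_mul]
              rfl
          · change (γ (rs k E F (σ * τ)) : (Fin m → G) × (L ≃ₐ[k] L)).2 =
              (γ (rs k E F σ) : (Fin m → G) × (L ≃ₐ[k] L)).2 *
                (γ (rs k E F τ) : (Fin m → G) × (L ≃ₐ[k] L)).2
            rw [map_mul, map_mul]
            rfl }
    refine proper_of_surj _ f ?_ fun σ x => ?_
    · rintro ⟨⟨y, τ⟩, hy⟩
      have hy' : ∀ i, α (y i) = τ := hy
      let z : FibrePower k L G α m := ⟨(Fin.tail y, τ), fun i => hy' i.succ⟩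
      obtain ⟨σ₀, hσ₀⟩ := AlgEquiv.restrictNormalHom_surjective (F := k) (K₁ := E) F (γ.symm z)
      have hσ₀' : rs k E F σ₀ = γ.symm z := hσ₀
      have h1 : α (η σ₀) = τ := by
        apply AlgEquiv.ext
        intro x
        rw [hres, hσ₀', MulEquiv.apply_symm_apply]
      obtain ⟨σ₁, h2, h3⟩ := hη2 (y 0 * (η σ₀)⁻¹) (by
        rw [map_mul, map_inv, h1, hy', mul_inv_cancel])
      have h4 : rs k E F σ₁ = 1 := rs_eq h2
      refine ⟨σ₁ * σ₀, ?_⟩
      apply Subtype.ext
      refine Prod.ext (funext fun i => ?_) ?_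
      · refine Fin.cases ?_ (fun i => ?_) i
        · change η (σ₁ * σ₀) = y 0
          rw [map_mul, h3, inv_mul_cancel_right]
        · change (γ (rs k E F (σ₁ * σ₀)) : (Fin m → G) × (L ≃ₐ[k] L)).1 i = y i.succ
          rw [map_mul, h4, one_mul, hσ₀', MulEquiv.apply_symm_apply]
          rfl
      · change (γ (rs k E F (σ₁ * σ₀)) : (Fin m → G) × (L ≃ₐ[k] L)).2 = τ
        rw [map_mul, h4, one_mul, hσ₀', MulEquiv.apply_symm_apply]
    · change σ (algebraMap L F x) =
        algebraMap L F ((γ (rs k E F σ) : (Fin m → G) × (L ≃ₐ[k] L)).2 x)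
      rw [← hres]
      exact hη1 σ x

/-- Proper solutions of the fibre powers give free solvability. -/
theorem free_of_pow [CharZero k] [FiniteDimensional k L] [IsGalois k L] [Finite G]
    (h : ∀ m, ProperlySolvable k L (FibrePower k L G α m) (fibreProj k L G α m)) :
    FreeT k L α := by
  classical
  intro E _ _ _ _ _ _
  obtain ⟨m, hm⟩ := pow_unbounded_of_one_lt (Nat.card (E ≃ₐ[k] E)) (one_lt_two : 1 < 2)
  obtain ⟨F, i1, i2, i3, i4, i5, i6, γ, hγ⟩ := h m
  obtain ⟨N, c1, c2, c3, c4, c5, c6, c7, hN⟩ := exists_comp' (K := k) (L := L) (B := E)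
    (E := k) (F := F)
  have t1 : IsScalarTower k E N := IsScalarTower.of_algebraMap_eq fun x => by
    rw [IsScalarTower.algebraMap_apply k L E, hN, ← IsScalarTower.algebraMap_apply k L F,
      ← IsScalarTower.algebraMap_apply k F N]
  let π : (N ≃ₐ[k] N) →* FibrePower k L G α m := γ.toMonoidHom.comp (rs k F N)
  have hπ : Function.Surjective π :=
    γ.surjective.comp (AlgEquiv.restrictNormalHom_surjective (F := k) (K₁ := F) N)
  have hact : ∀ (σ : N ≃ₐ[k] N) (x : L), σ (algebraMap E N (algebraMap L E x)) =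
      algebraMap E N (algebraMap L E ((π σ : (Fin m → G) × (L ≃ₐ[k] L)).2 x)) := by
    intro σ x
    rw [hN, hN, rs_comm, hγ]
    rfl
  -- the subgroup acting trivially on `L`
  let K₁ : Subgroup (N ≃ₐ[k] N) := ((fibreProj k L G α m).comp π).ker
  have hK₁ : ∀ σ ∈ K₁, (π σ : (Fin m → G) × (L ≃ₐ[k] L)).2 = 1 := fun σ hσ => hσ
  let π' : K₁ →* (Fin m → α.ker) :=
    { toFun := fun σ i => ⟨(π σ.1 : (Fin m → G) × (L ≃ₐ[k] L)).1 i, by
        rw [MonoidHom.mem_ker, (π σ.1).2 i]
        exact hK₁ _ σ.2⟩
      map_one' := by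
        funext i
        apply Subtype.ext
        change (π 1 : (Fin m → G) × (L ≃ₐ[k] L)).1 i = 1
        rw [map_one]
        rfl
      map_mul' := fun σ τ => by
        funext i
        apply Subtype.ext
        change (π (σ.1 * τ.1) : (Fin m → G) × (L ≃ₐ[k] L)).1 i =
          (π σ.1 : (Fin m → G) × (L ≃ₐ[k] L)).1 i * (π τ.1 : (Fin m → G) × (L ≃ₐ[k] L)).1 i
        rw [map_mul]
        rfl }
  have hπ' : Function.Surjective π' := by
    intro y
    obtain ⟨σ, hσ⟩ := hπ ⟨(fun i => (y i : G), 1), fun i => (y i).2⟩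
    have h1 : σ ∈ K₁ := by
      change (π σ : (Fin m → G) × (L ≃ₐ[k] L)).2 = 1
      rw [hσ]
    refine ⟨⟨σ, h1⟩, ?_⟩
    funext i
    apply Subtype.ext
    change (π σ : (Fin m → G) × (L ≃ₐ[k] L)).1 i = y i
    rw [hσ]
  let rE : K₁ →* (E ≃ₐ[k] E) := (rs k E N).comp K₁.subtype
  have hidx : (rE.ker.map π').index < 2 ^ m := by
    have h1 : (rE.ker.map π').index ∣ rE.ker.index := Subgroup.index_map_dvd _ hπ'
    have h2 : rE.ker.index ≤ Nat.card (E ≃ₐ[k] E) := by
      rw [Subgroup.index_ker]
      exact Subgroup.card_le_card_group _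
    have h3 : rE.ker.index ≠ 0 := by
      rw [Subgroup.index_ker]
      exact Nat.card_pos.ne'
    exact ((Nat.le_of_dvd (Nat.pos_of_ne_zero h3) h1).trans h2).trans_lt hm
  obtain ⟨i, hi⟩ := exists_full m _ hidx
  refine ⟨N, c1, c2, c5, t1, c6, c7, (Pi.evalMonoidHom (fun _ : Fin m => G) i).comp
    ((MonoidHom.fst _ _).comp ((FibrePower k L G α m).subtype.comp π)), fun σ x => ?_,
    fun g hg => ?_⟩
  · rw [hact]
    have h1 : α ((π σ : (Fin m → G) × (L ≃ₐ[k] L)).1 i) =
      (π σ : (Fin m → G) × (L ≃ₐ[k] L)).2 := (π σ).2 i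
    rw [← h1]
    rfl
  · obtain ⟨y, ⟨σ, hσ, hσy⟩, hy⟩ := hi ⟨g, hg⟩
    have h1 : rs k E N σ.1 = 1 := hσ
    refine ⟨σ.1, fun x => ?_, ?_⟩
    · rw [rs_comm, h1]
      rfl
    · have h2 := congrArg Subtype.val hy
      rw [← hσy] at h2
      exact h2

end Pool.Agent.H865.TQ
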