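import Mathlib
import Pool.Graph.R_seed8.TH377.IG.Bc2
import Pool.Graph.R_seed8.H33R2.V3
import Pool.Graph.R_pool_sql_team_seeded_707910d6.T2H67.AG.Main
import Pool.Agent.H865.TQ.Occ

/-!
# Free solvability of embedding problems with regular solutions
-/

set_option autoImplicit false

namespace Pool.Agent.H865.TQ

open Pool.Agent.H391R2.T4 (RegSol HilbField)
open Pool.Agent.TH377.IG (FP prFP base_change mem_FP)
open Pool.Agent.T2H67.AG (Peelable peelable_reg)

theorem free_of_reg (k L G : Type) [Field k] [Field L] [Algebra k L] [FiniteDimensional k L]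
    [IsGalois k L] [Group G] [Finite G] (hk : HilbField k) (α : G →* (L ≃ₐ[k] L))
    (h : RegSol k L G α) : FreeT k L α := by
  intro E _ _ _ _ _ _
  let r : (E ≃ₐ[k] E) →* (L ≃ₐ[k] L) := AlgEquiv.restrictNormalHom (F := k) (K₁ := E) L
  have hr : ∀ (δ : E ≃ₐ[k] E) (x : L), δ (algebraMap L E x) = algebraMap L E (r δ x) :=
    fun δ x => (AlgEquiv.restrictNormal_commutes δ L x).symm
  obtain ⟨F, i1, i2, i3, i4, i5, i6, γ, hγ⟩ := H33.hilbert_spec k hk E (FP α r) (prFP α r)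
    (base_change k L G α h E)
  have hγ' : ∀ (σ : F ≃ₐ[k] F) (x : E), σ (algebraMap E F x) =
      algebraMap E F ((γ σ : G × (E ≃ₐ[k] E)).2 x) := by
    intro σ x
    have h1 := AlgEquiv.restrictNormal_commutes σ E x
    rw [← hγ] at h1
    exact h1.symm
  refine ⟨F, i1, i2, i3, i4, i5, i6,
    (MonoidHom.fst G (E ≃ₐ[k] E)).comp ((FP α r).subtype.comp γ.toMonoidHom),
    fun σ x => ?_, fun g hg => ?_⟩
  · rw [hγ', hr]
    have h1 : α (γ σ : G × (E ≃ₐ[k] E)).1 = r (γ σ : G × (E ≃ₐ[k] E)).2 := (γ σ).2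
    rw [← h1]
    rfl
  · have hmem : ((g, 1) : G × (E ≃ₐ[k] E)) ∈ FP α r := by
      rw [mem_FP, hg, map_one]
    refine ⟨γ.symm ⟨(g, 1), hmem⟩, fun x => ?_, ?_⟩
    · rw [hγ', MulEquiv.apply_symm_apply]
      rfl
    · change (γ (γ.symm ⟨(g, 1), hmem⟩) : G × (E ≃ₐ[k] E)).1 = g
      rw [MulEquiv.apply_symm_apply]

theorem free_of_peelable (k L G : Type) [Field k] [Field L] [Algebra k L] [FiniteDimensional k L]
    [IsGalois k L] [Group G] [Finite G] (hk : HilbField k) (α : G →* (L ≃ₐ[k] L))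
    (h : Peelable k α.ker) (hw : WeakT k L α) : FreeT k L α := by
  obtain ⟨F, i1, i2, i3, i4, i5, i6, η, hη⟩ := hw
  refine free_of_reg k L G hk α (peelable_reg k L G α F η (fun σ => ?_) h)
  apply AlgEquiv.ext
  intro x
  apply (algebraMap L F).injective
  rw [← hη, AlgEquiv.restrictNormal_commutes]

end Pool.Agent.H865.TQ
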