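import Mathlib
import Pool.Agent.H865.TQ.Fib
import Pool.Agent.H865.TQ.Reg
import Pool.Graph.R_seed8.W583.HP.FG
import Pool.Graph.R_pool_sql_team_seeded_5cf16337.K3h17.HQ.Cv

/-!
# Twisted linear quotients: the main theorems
-/

set_option autoImplicit false

namespace Pool.Agent.H865.TQ

open AlgebraicGeometry CategoryTheory MvPolynomial W560.HP
open Pool.Agent.TH377.IG (FP prFP mem_FP exists_comp')
open Pool.Agent.R70.HC (HilbertPropertyIso)
open Pool.Agent.T2H67.AG (Peelable)

theorem hilb_of {k : Type} [Field k] [CharZero k] (hk : FinitelyGenerated k ∨ IsHilbertian k) :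
    IsHilbertian k := by
  rcases hk with ⟨S, hS⟩ | h
  · exact Pool.Agent.W583.HP.fg k S hS
  · exact h

section crit

variable (k : Type) [Field k] [CharZero k] (hk : IsHilbertian k) (L : Type) [Field L]
    [Algebra k L] [FiniteDimensional k L] [IsGalois k L] (G : Type) [Group G] [Finite G]
    (α : G →* (L ≃ₐ[k] L)) (N : ℕ) (ρ : G → GL (Fin N) L) (hρ : IsSemilinear α ρ)
    (hf : IsFaithful α ρ)

include hk hρ hf in
/-- The criterion for the Hilbert property. -/
theorem crit :
    (∀ (X : Scheme.{0}) [IsIntegral X] (p : X ⟶ Spec (CommRingCat.of k)) [LocallyOfFiniteType p],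
      IsQuotientModel k α ρ X p → HilbertProperty k X p) ↔
    ∀ m, ProperlySolvable k L (FibrePower k L G α m) (fibreProj k L G α m) := by
  constructor
  · intro h
    exact pow_of_free (free_of_hp hρ hf h)
  · intro h X _ p _ hX
    exact (hp_of_free k hk L G α (free_of_pow h) N ρ hρ X p hX).1

theorem proper_of_free (h : FreeT k L α) : ProperlySolvable k L G α := by
  obtain ⟨F, j1, j2, j3, j4, j5, j6, η, hη1, hη2⟩ := h L
  refine proper_of_surj α η (fun g => ?_) hη1
  obtain ⟨σ₀, hσ₀⟩ := AlgEquiv.restrictNormalHom_surjective (F := k) (K₁ := L) F (α g)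
  have h1 : α (η σ₀) = α g := by
    apply AlgEquiv.ext
    intro x
    apply (algebraMap L F).injective
    have h2 := hη1 σ₀ x
    have h3 : rs k L F σ₀ = α g := hσ₀
    have h4 := rs_comm σ₀ x
    rw [h3] at h4
    exact h2.symm.trans h4
  obtain ⟨σ₁, -, h5⟩ := hη2 (g * (η σ₀)⁻¹) (by rw [map_mul, map_inv, h1, mul_inv_cancel])
  exact ⟨σ₁ * σ₀, by rw [map_mul, h5, inv_mul_cancel_right]⟩

theorem weak_of_proper (h : ProperlySolvable k L G α) : WeaklySolvable k L G α := by
  obtain ⟨F, j1, j2, j3, j4, j5, j6, γ, hγ⟩ := h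
  exact ⟨F, j1, j2, j3, j4, j5, j6, γ.toMonoidHom, hγ⟩

end crit

theorem AltSeries.compIn (k : Type) [Field k] [CharZero k] {H : Type} [Group H]
    (h : AltSeries H) : Pool.Agent.Y60.DC.CompIn (Pool.Agent.T2H67.AG.Factor k) H := by
  induction h with
  | one H h => exact Pool.Agent.Y60.DC.CompIn.one H h
  | ext H M hM d h5 h6 e ih =>
    exact Pool.Agent.Y60.DC.CompIn.ext H M ih (Or.inl ⟨inferInstance, d, h5, h6, e⟩)

theorem GoodKernel.peelable (k : Type) [Field k] [CharZero k] {H : Type} [Group H]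
    (h : GoodKernel H) : Peelable k H := by
  induction h with
  | comm H h => exact Peelable.comm H h
  | coprime H T M hTM hab hco h ih => exact Peelable.coprime H T M hTM hab hco ih
  | alternating H A hA h ih => exact Peelable.factor H A (hA.compIn k) ih

/-- Solutions of split problems give free solvability of weakly solvable problems. -/
theorem free_of_split (k : Type) [Field k] [CharZero k]
    (hs : ∀ (L : Type) [Field L] [Algebra k L] [FiniteDimensional k L] [IsGalois k L] (G : Type)
      [Group G] [Finite G] (α : G →* (L ≃ₐ[k] L)),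
      (∃ s : (L ≃ₐ[k] L) →* G, ∀ σ, α (s σ) = σ) → ProperlySolvable k L G α)
    (L : Type) [Field L] [Algebra k L] [FiniteDimensional k L] [IsGalois k L] (G : Type)
    [Group G] [Finite G] (α : G →* (L ≃ₐ[k] L)) (hw : WeaklySolvable k L G α) :
    FreeT k L α := by
  obtain ⟨F, i1, i2, i3, i4, i5, i6, φ, hφ⟩ := hw
  refine free_at fun E _ _ _ _ _ _ => ?_
  obtain ⟨N, c1, c2, c3, c4, c5, c6, c7, hN⟩ := exists_comp' (K := k) (L := L) (B := E)
    (E := k) (F := F)
  have t1 : IsScalarTower k E N := IsScalarTower.of_algebraMap_eq fun x => by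
    rw [IsScalarTower.algebraMap_apply k L E, hN, ← IsScalarTower.algebraMap_apply k L F,
      ← IsScalarTower.algebraMap_apply k F N]
  let _ : Algebra L N := ((algebraMap E N).comp (algebraMap L E)).toAlgebra
  have t2 : IsScalarTower L E N := IsScalarTower.of_algebraMap_eq fun x => rfl
  have t3 : IsScalarTower k L N := IsScalarTower.of_algebraMap_eq fun x => by
    rw [IsScalarTower.algebraMap_apply k E N, IsScalarTower.algebraMap_apply k L E,
      ← IsScalarTower.algebraMap_apply L E N]
  refine ⟨N, c1, c2, c5, t1, inferInstance, t2, t3, ?_⟩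
  let s₀ : (N ≃ₐ[k] N) →* G := φ.comp (rs k F N)
  have hs₀ : ∀ δ : N ≃ₐ[k] N, α (s₀ δ) = rs k L N δ := by
    intro δ
    symm
    apply rs_eq
    intro x
    change δ (algebraMap E N (algebraMap L E x)) = algebraMap E N (algebraMap L E _)
    rw [hN, hN, rs_comm, hφ]
    rfl
  refine hs N _ _ ⟨(s₀.prod (MonoidHom.id _)).codRestrict _ fun δ => ?_, fun δ => rfl⟩
  rw [mem_FP]
  exact hs₀ δ

/-- The regular representation, semilinear. -/
theorem exists_rep (k L : Type) [Field k] [Field L] [Algebra k L] (G : Type) [Group G] [Finite G]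
    (α : G →* (L ≃ₐ[k] L)) : ∃ (N : ℕ) (ρ : G → GL (Fin N) L), IsSemilinear α ρ ∧
      IsFaithful α ρ ∧ ∀ g h, ρ (g * h) = ρ g * ρ h := by
  classical
  let π : G →* Equiv.Perm (Fin (Nat.card G)) := Pool.Agent.K3h17.HQ.regPerm G
  let r : G →* GL (Fin (Nat.card G)) L := Pool.Agent.K3h17.HQ.prep (k := L) π
  have hent : ∀ g i j, (r g : Matrix (Fin (Nat.card G)) (Fin (Nat.card G)) L) i j =
      if π g⁻¹ i = j then 1 else 0 := by
    intro g i j
    have h3 : (r g : Matrix (Fin (Nat.card G)) (Fin (Nat.card G)) L) =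
      ((π g)⁻¹).permMatrix L := rfl
    rw [h3, Equiv.Perm.permMatrix, PEquiv.toMatrix_apply, map_inv]
    simp only [Equiv.toPEquiv_apply, Option.mem_def, Option.some.injEq]
  refine ⟨Nat.card G, r, fun g h => ?_, fun g _ hg => ?_, fun g h => map_mul r g h⟩
  · rw [map_mul, Units.val_mul]
    congr 1
    ext i j
    rw [Matrix.map_apply, hent]
    split_ifs
    · rw [map_one]
    · rw [map_zero]
  · have h1 := hent g (Finite.equivFin G g) (Finite.equivFin G 1)
    have h2 : π g⁻¹ (Finite.equivFin G g) = Finite.equivFin G 1 := by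
      have h3 := Pool.Agent.K3h17.HQ.regPerm_apply G g
      rw [← h3, ← Equiv.Perm.mul_apply, ← map_mul, inv_mul_cancel, map_one]
      rfl
    rw [if_pos h2, hg, Units.val_one, Matrix.one_apply] at h1
    by_cases h4 : Finite.equivFin G g = Finite.equivFin G 1
    · exact (Finite.equivFin G).injective h4
    · rw [if_neg h4] at h1
      exact absurd h1 zero_ne_one

end Pool.Agent.H865.TQ
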